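import Pool.Agent.Helper852.Counting

set_option autoImplicit false

/-!
Vertices of degree at most one in distinct components.
-/

namespace Pool.Agent.Helper852.K

open Finset Classical Pool.Agent.Helper852.Cnt

variable {n : ℕ}

/-- The vertices of a component. -/
noncomputable def cv (G : SimpleGraph (Fin n)) (C : G.ConnectedComponent) : Finset (Fin n) :=
  univ.filter (fun v => G.connectedComponentMk v = C)

theorem comp_degree (G : SimpleGraph (Fin n)) (C : G.ConnectedComponent) (v : C) :
    C.toSimpleGraph.degree v = dg G v.1 := by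
  rw [← SimpleGraph.card_neighborFinset_eq_degree]
  unfold dg
  have h1 : (univ.filter (fun u => G.Adj v.1 u)) =
      (C.toSimpleGraph.neighborFinset v).image (fun u => u.1) := by
    ext u
    rw [Finset.mem_filter, Finset.mem_image]
    constructor
    · rintro ⟨_, h⟩
      have hu : u ∈ C := by
        have hv : G.connectedComponentMk v.1 = C := v.2
        change G.connectedComponentMk u = C
        rw [← hv]
        exact SimpleGraph.ConnectedComponent.sound h.symm.reachable
      refine ⟨⟨u, hu⟩, ?_, rfl⟩
      rw [SimpleGraph.mem_neighborFinset]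
      exact (C.toSimpleGraph_adj v.2 hu).mpr h
    · rintro ⟨w, hw, rfl⟩
      rw [SimpleGraph.mem_neighborFinset] at hw
      exact ⟨Finset.mem_univ _, (C.toSimpleGraph_adj v.2 w.2).mp hw⟩
  rw [h1, Finset.card_image_of_injective _ Subtype.val_injective]

theorem comp_sum (G : SimpleGraph (Fin n)) (C : G.ConnectedComponent) :
    2 * (cv G C).card ≤ ∑ v ∈ cv G C, dg G v + 2 := by
  have h1 := C.connected_toSimpleGraph.card_vert_le_card_edgeSet_add_one
  have h2 := C.toSimpleGraph.sum_degrees_eq_twice_card_edges
  have h3 : ∑ v : C, C.toSimpleGraph.degree v = ∑ v ∈ cv G C, dg G v := by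
    rw [Finset.sum_congr rfl (fun v _ => comp_degree G C v)]
    rw [← Finset.sum_coe_sort (cv G C) (fun v => dg G v)]
    apply Fintype.sum_bijective (fun v : C => (⟨v.1, by
      unfold cv
      rw [Finset.mem_filter]
      exact ⟨Finset.mem_univ _, v.2⟩⟩ : cv G C))
    · constructor
      · intro a b hab
        have := congrArg (fun x : cv G C => x.1) hab
        exact Subtype.ext this
      · intro y
        have hy := y.2
        unfold cv at hy
        rw [Finset.mem_filter] at hy
        exact ⟨⟨y.1, hy.2⟩, rfl⟩
    · intro v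
      rfl
  have h4 : Nat.card C = (cv G C).card := by
    rw [← Fintype.card_coe, ← Nat.card_eq_fintype_card]
    apply Nat.card_congr
    refine ⟨fun v => ⟨v.1, by
      unfold cv
      rw [Finset.mem_filter]
      exact ⟨Finset.mem_univ _, v.2⟩⟩, fun y => ⟨y.1, by
      have hy := y.2
      unfold cv at hy
      rw [Finset.mem_filter] at hy
      exact hy.2⟩, fun _ => rfl, fun _ => rfl⟩
  have h5 : Nat.card C.toSimpleGraph.edgeSet = C.toSimpleGraph.edgeFinset.card := by
    rw [Nat.card_eq_fintype_card, SimpleGraph.edgeFinset_card]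
  rw [h4, h5] at h1
  rw [h3] at h2
  omega

/-- Good components. -/
noncomputable def gc (G : SimpleGraph (Fin n)) : Finset G.ConnectedComponent :=
  univ.filter (fun C => ∃ v, G.connectedComponentMk v = C ∧ dg G v ≤ 1)

theorem good_comps (G : SimpleGraph (Fin n)) : n ≤ G.edgeFinset.card + (gc G).card := by
  have h1 : ∑ v, dg G v = ∑ C : G.ConnectedComponent, ∑ v ∈ cv G C, dg G v := by
    unfold cv
    exact (Finset.sum_fiberwise univ (fun v => G.connectedComponentMk v) (fun v => dg G v)).symm
  have h2 : ∑ C : G.ConnectedComponent, (cv G C).card = n := by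
    have := Finset.sum_fiberwise univ (fun v : Fin n => G.connectedComponentMk v)
      (fun _ => 1)
    simp only [Finset.sum_const, smul_eq_mul, mul_one, Finset.card_univ, Fintype.card_fin] at this
    exact this
  have h3 : ∀ C : G.ConnectedComponent, 2 * (cv G C).card ≤ ∑ v ∈ cv G C, dg G v +
      (if C ∈ gc G then 2 else 0) := by
    intro C
    by_cases hC : C ∈ gc G
    · rw [if_pos hC]
      exact comp_sum G C
    · rw [if_neg hC, add_zero]
      calc 2 * (cv G C).card = ∑ _v ∈ cv G C, 2 := by
            rw [Finset.sum_const, smul_eq_mul, mul_comm]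
        _ ≤ ∑ v ∈ cv G C, dg G v := by
            apply Finset.sum_le_sum
            intro v hv
            by_contra hcon
            apply hC
            refine Finset.mem_filter.mpr ⟨Finset.mem_univ _, v, (Finset.mem_filter.mp hv).2, ?_⟩
            omega
  have h4 := Finset.sum_le_sum (fun C (_ : C ∈ (univ : Finset G.ConnectedComponent)) => h3 C)
  rw [← Finset.mul_sum, h2, Finset.sum_add_distrib, ← h1, sum_dg, Finset.sum_ite_mem,
    Finset.univ_inter, Finset.sum_const, smul_eq_mul] at h4
  omega

theorem exists_leaves (G : SimpleGraph (Fin n)) (k : ℕ) (he : G.edgeFinset.card + k ≤ n)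
    (ι : Type) [Fintype ι] (hι : Fintype.card ι + 1 ≤ k) (b : Fin n) :
    ∃ c : ι → Fin n, (∀ i, dg G (c i) ≤ 1) ∧ (∀ i, ¬ G.Reachable (c i) b) ∧
      (∀ i j, i ≠ j → ¬ G.Reachable (c i) (c j)) := by
  have h1 := good_comps G
  have h2 : Fintype.card ι ≤ Fintype.card ((gc G).erase (G.connectedComponentMk b)) := by
    rw [Fintype.card_coe]
    have := Finset.pred_card_le_card_erase (s := gc G) (a := G.connectedComponentMk b)
    omega
  obtain ⟨f⟩ := Function.Embedding.nonempty_of_card_le h2
  have h3 : ∀ C : (gc G).erase (G.connectedComponentMk b), ∃ v,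
      G.connectedComponentMk v = C.1 ∧ dg G v ≤ 1 := by
    intro C
    exact (Finset.mem_filter.mp (Finset.mem_of_mem_erase C.2)).2
  choose g hg1 hg2 using h3
  refine ⟨fun i => g (f i), fun i => hg2 _, ?_, ?_⟩
  · intro i hr
    have h4 := SimpleGraph.ConnectedComponent.sound hr
    have h5 : G.connectedComponentMk (g (f i)) = G.connectedComponentMk b := h4
    rw [hg1] at h5
    exact Finset.ne_of_mem_erase (f i).2 h5
  · intro i j hij hr
    have h5 : G.connectedComponentMk (g (f i)) = G.connectedComponentMk (g (f j)) :=
      SimpleGraph.ConnectedComponent.sound hr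
    rw [hg1, hg1] at h5
    exact hij (f.injective (Subtype.ext h5))

end Pool.Agent.Helper852.K
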