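import Pool.Agent.Helper852.K.ExtendC

set_option autoImplicit false

/-!
A core for a family of graphs extends to a packing of the family.
-/

namespace Pool.Agent.Helper852.K

open Finset Classical Pool.Agent.Helper852.Cnt Pool.Agent.Helper852.LLL Pool.Agent.Helper852.Grd

variable {n k : ℕ}

/-- The union of the graphs placed so far. -/
def placed (G : Fin k → SimpleGraph (Fin n)) (σ : Fin k → (Fin n ≃ Fin n)) (m : ℕ) :
    SimpleGraph (Fin n) where
  Adj x y := ∃ i : Fin k, i.1 < m ∧ (G i).Adj ((σ i).symm x) ((σ i).symm y)
  symm := ⟨by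
    rintro x y ⟨i, hi, h⟩
    exact ⟨i, hi, h.symm⟩⟩
  loopless := ⟨by
    rintro x ⟨i, _, h⟩
    exact (G i).irrefl h⟩

theorem dg_placed (G : Fin k → SimpleGraph (Fin n)) (σ : Fin k → (Fin n ≃ Fin n)) (m : ℕ)
    (x : Fin n) : dg (placed G σ m) x ≤ ∑ i ∈ univ.filter (fun i : Fin k => i.1 < m),
      dg (G i) ((σ i).symm x) := by
  have h1 : (univ.filter (fun y => (placed G σ m).Adj x y)) ⊆
      (univ.filter (fun i : Fin k => i.1 < m)).biUnion
        (fun i => (univ.filter (fun v => (G i).Adj ((σ i).symm x) v)).image (σ i)) := by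
    intro y hy
    obtain ⟨i, hi, h⟩ := (Finset.mem_filter.mp hy).2
    refine Finset.mem_biUnion.mpr ⟨i, Finset.mem_filter.mpr ⟨Finset.mem_univ _, hi⟩,
      Finset.mem_image.mpr ⟨(σ i).symm y, Finset.mem_filter.mpr ⟨Finset.mem_univ _, h⟩,
        (σ i).apply_symm_apply y⟩⟩
  refine (Finset.card_le_card h1).trans (Finset.card_biUnion_le.trans ?_)
  exact Finset.sum_le_sum (fun i _ => Finset.card_image_le)

theorem pack_of_core (G : Fin k → SimpleGraph (Fin n)) {ι : Type} [Fintype ι]
    (τ : ι → Fin k → Fin n) (pos : ι → Fin n) (hpos : Function.Injective pos)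
    (hinj : ∀ i, Function.Injective (fun a => τ a i))
    (hconf : ∀ a a' i j, i ≠ j → (G i).Adj (τ a i) (τ a' i) → ¬ (G j).Adj (τ a j) (τ a' j))
    (Bg : Fin k → Finset (Fin n)) (d0 w W : ℝ) (hd0 : 0 ≤ d0) (hw : 0 ≤ w)
    (K1 : ∀ i v, (∀ a, τ a i ≠ v) → (dg (G i) v : ℝ) ≤ d0)
    (K2 : ∀ a i j, i ≠ j → τ a i ∈ Bg i → ∀ q, (G j).Adj (τ a j) q → ∃ a', τ a' j = q)
    (K3 : ∀ i, ∑ a ∈ univ.filter (fun a => τ a i ∉ Bg i), (dg (G i) (τ a i) : ℝ) ≤ w)
    (hW : ∀ i, ((∑ v, dg (G i) v : ℕ) : ℝ) ≤ W) (hW0 : 0 ≤ W)
    (hcard : Fintype.card ι + 3 ≤ n)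
    (hnum : (k * w) / ((n - Fintype.card ι : ℕ) : ℝ) +
      2 * ((k * d0) * (k * W)) /
        (((n - Fintype.card ι) * (n - Fintype.card ι - 1) : ℕ) : ℝ) ≤ 1 / 16) :
    ∃ σ : Fin k → (Fin n ≃ Fin n), ∀ i j, i ≠ j → ∀ x y,
      (G i).Adj ((σ i).symm x) ((σ i).symm y) → ¬ (G j).Adj ((σ j).symm x) ((σ j).symm y) := by
  have main : ∀ m : ℕ, m ≤ k → ∃ σ : Fin k → (Fin n ≃ Fin n),
      (∀ i : Fin k, i.1 < m → ∀ a, σ i (τ a i) = pos a) ∧
      ∀ i j : Fin k, i.1 < m → j.1 < m → i ≠ j → ∀ x y,
      (G i).Adj ((σ i).symm x) ((σ i).symm y) → ¬ (G j).Adj ((σ j).symm x) ((σ j).symm y) := by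
    intro m
    induction m with
    | zero =>
      intro _
      exact ⟨fun _ => Equiv.refl _, fun i hi => absurd hi (Nat.not_lt_zero _),
        fun i _ hi => absurd hi (Nat.not_lt_zero _)⟩
    | succ m ih =>
      intro hm
      obtain ⟨σ, hσ1, hσ2⟩ := ih (by omega)
      set j : Fin k := ⟨m, by omega⟩ with hj
      have hk1 : (1 : ℝ) ≤ k := by
        have : 1 ≤ k := by omega
        exact_mod_cast this
      set U := placed G σ m with hU
      set C : Finset (Fin n × Fin n) := (univ : Finset ι).image (fun a => (pos a, τ a j)) with hC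
      have hCcard : C.card = Fintype.card ι := by
        rw [hC, Finset.card_image_of_injective, Finset.card_univ]
        intro a a' h
        exact hpos (congrArg Prod.fst h)
      have memC : ∀ p ∈ C, ∃ a, p = (pos a, τ a j) := by
        intro p hp
        obtain ⟨a, _, h⟩ := Finset.mem_image.mp hp
        exact ⟨a, h.symm⟩
      have snd_mem : ∀ t, t ∉ C.image Prod.snd → ∀ a, τ a j ≠ t := by
        intro t ht a h
        apply ht
        exact Finset.mem_image.mpr ⟨(pos a, τ a j), Finset.mem_image.mpr
          ⟨a, Finset.mem_univ _, rfl⟩, h⟩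
      have fst_mem : ∀ r, r ∉ C.image Prod.fst → ∀ a, pos a ≠ r := by
        intro r hr a h
        apply hr
        exact Finset.mem_image.mpr ⟨(pos a, τ a j), Finset.mem_image.mpr
          ⟨a, Finset.mem_univ _, rfl⟩, h⟩
      have symm_pos : ∀ i : Fin k, i.1 < m → ∀ a, (σ i).symm (pos a) = τ a i := by
        intro i hi a
        rw [← hσ1 i hi a, Equiv.symm_apply_apply]
      have notcore : ∀ r, r ∉ C.image Prod.fst → ∀ i : Fin k, i.1 < m → ∀ a,
          τ a i ≠ (σ i).symm r := by
        intro r hr i hi a h
        apply fst_mem r hr a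
        rw [← hσ1 i hi a, h, Equiv.apply_symm_apply]
      obtain ⟨σj, hj1, hj2⟩ := extendC U (G j) C
        (by
          intro p hp p' hp' he
          obtain ⟨a, rfl⟩ := memC p hp
          obtain ⟨a', rfl⟩ := memC p' hp'
          have : a = a' := hpos he
          rw [this])
        (by
          intro p hp p' hp' he
          obtain ⟨a, rfl⟩ := memC p hp
          obtain ⟨a', rfl⟩ := memC p' hp'
          have : a = a' := hinj j he
          rw [this])
        (by
          intro p hp p' hp' hg
          obtain ⟨a, rfl⟩ := memC p hp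
          obtain ⟨a', rfl⟩ := memC p' hp'
          obtain ⟨i, hi, hadj⟩ := hg
          simp only at hadj
          rw [symm_pos i hi, symm_pos i hi] at hadj
          refine hconf a a' i j ?_ hadj
          intro h
          rw [h, hj] at hi
          exact lt_irrefl _ hi)
        (k * w) (k * d0) (k * W) (by positivity)
        (by
          -- forbidden positions for a vertex t
          intro t ht
          have hsub : univ.filter (fun r => r ∉ C.image Prod.fst ∧
              ∃ p ∈ C, U.Adj p.1 r ∧ (G j).Adj p.2 t) ⊆
              (univ : Finset (Fin k)).biUnion (fun i =>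
                (univ.filter (fun a => τ a i ∉ Bg i)).biUnion (fun a =>
                  (univ.filter (fun v => (G i).Adj (τ a i) v)).image (σ i))) := by
            intro r hr
            obtain ⟨_, h1, p, hp, h2, h3⟩ := Finset.mem_filter.mp hr
            obtain ⟨a, rfl⟩ := memC p hp
            obtain ⟨i, hi, hadj⟩ := h2
            simp only at hadj h3
            rw [symm_pos i hi] at hadj
            have hij : i ≠ j := by
              intro h
              rw [h, hj] at hi
              exact lt_irrefl _ hi
            refine Finset.mem_biUnion.mpr ⟨i, Finset.mem_univ _, Finset.mem_biUnion.mpr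
              ⟨a, Finset.mem_filter.mpr ⟨Finset.mem_univ _, ?_⟩, Finset.mem_image.mpr
                ⟨(σ i).symm r, Finset.mem_filter.mpr ⟨Finset.mem_univ _, hadj⟩,
                  (σ i).apply_symm_apply r⟩⟩⟩
            intro hbig
            obtain ⟨a', ha'⟩ := K2 a i j hij hbig t h3
            exact snd_mem t ht a' ha'
          have h1 : ((univ.filter (fun r => r ∉ C.image Prod.fst ∧
              ∃ p ∈ C, U.Adj p.1 r ∧ (G j).Adj p.2 t)).card : ℝ) ≤
              ∑ i : Fin k, ∑ a ∈ univ.filter (fun a => τ a i ∉ Bg i),
                (dg (G i) (τ a i) : ℝ) := by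
            have h2 := (Finset.card_le_card hsub).trans (Finset.card_biUnion_le.trans
              (Finset.sum_le_sum (fun i _ => Finset.card_biUnion_le.trans
                (Finset.sum_le_sum (fun a _ => Finset.card_image_le)))))
            have h3 : (univ.filter (fun r => r ∉ C.image Prod.fst ∧
              ∃ p ∈ C, U.Adj p.1 r ∧ (G j).Adj p.2 t)).card ≤
              ∑ i : Fin k, ∑ a ∈ univ.filter (fun a => τ a i ∉ Bg i),
                dg (G i) (τ a i) := h2
            exact_mod_cast h3
          refine h1.trans ?_
          calc ∑ i : Fin k, ∑ a ∈ univ.filter (fun a => τ a i ∉ Bg i),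
                (dg (G i) (τ a i) : ℝ) ≤ ∑ _i : Fin k, w :=
                Finset.sum_le_sum (fun i _ => K3 i)
            _ = k * w := by rw [Finset.sum_const, nsmul_eq_mul, Finset.card_univ,
                Fintype.card_fin])
        (by
          intro r hr
          have hsub : univ.filter (fun t => t ∉ C.image Prod.snd ∧
              ∃ p ∈ C, U.Adj p.1 r ∧ (G j).Adj p.2 t) ⊆
              (univ.filter (fun a => τ a j ∉ Bg j)).biUnion (fun a =>
                univ.filter (fun v => (G j).Adj (τ a j) v)) := by
            intro t ht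
            obtain ⟨_, h1, p, hp, h2, h3⟩ := Finset.mem_filter.mp ht
            obtain ⟨a, rfl⟩ := memC p hp
            obtain ⟨i, hi, hadj⟩ := h2
            simp only at hadj h3
            rw [symm_pos i hi] at hadj
            have hij : j ≠ i := by
              intro h
              rw [← h, hj] at hi
              exact lt_irrefl _ hi
            refine Finset.mem_biUnion.mpr ⟨a, Finset.mem_filter.mpr ⟨Finset.mem_univ _, ?_⟩,
              Finset.mem_filter.mpr ⟨Finset.mem_univ _, h3⟩⟩
            intro hbig
            obtain ⟨a', ha'⟩ := K2 a j i hij hbig _ hadj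
            exact notcore r hr i hi a' ha'
          have h1 : ((univ.filter (fun t => t ∉ C.image Prod.snd ∧
              ∃ p ∈ C, U.Adj p.1 r ∧ (G j).Adj p.2 t)).card : ℝ) ≤
              ∑ a ∈ univ.filter (fun a => τ a j ∉ Bg j), (dg (G j) (τ a j) : ℝ) := by
            have h2 : (univ.filter (fun t => t ∉ C.image Prod.snd ∧
              ∃ p ∈ C, U.Adj p.1 r ∧ (G j).Adj p.2 t)).card ≤
              ∑ a ∈ univ.filter (fun a => τ a j ∉ Bg j), dg (G j) (τ a j) :=
              (Finset.card_le_card hsub).trans Finset.card_biUnion_le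
            exact_mod_cast h2
          refine (h1.trans (K3 j)).trans ?_
          nlinarith)
        (by
          intro t ht
          refine (K1 j t (snd_mem t ht)).trans ?_
          nlinarith)
        (by
          intro r hr
          have h1 : (dg U r : ℝ) ≤ ∑ i ∈ univ.filter (fun i : Fin k => i.1 < m),
              (dg (G i) ((σ i).symm r) : ℝ) := by
            exact_mod_cast dg_placed G σ m r
          refine h1.trans ?_
          calc ∑ i ∈ univ.filter (fun i : Fin k => i.1 < m), (dg (G i) ((σ i).symm r) : ℝ)
              ≤ ∑ _i ∈ univ.filter (fun i : Fin k => i.1 < m), d0 := by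
                apply Finset.sum_le_sum
                intro i hi
                exact K1 i _ (notcore r hr i (Finset.mem_filter.mp hi).2)
            _ ≤ ∑ _i : Fin k, d0 :=
                Finset.sum_le_sum_of_subset_of_nonneg (Finset.filter_subset _ _)
                  (fun _ _ _ => hd0)
            _ = k * d0 := by rw [Finset.sum_const, nsmul_eq_mul, Finset.card_univ,
                Fintype.card_fin])
        (by
          refine (hW j).trans ?_
          nlinarith)
        (by
          have h1 : ((∑ x, dg U x : ℕ) : ℝ) ≤ ∑ x : Fin n, ∑ i : Fin k,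
              (dg (G i) ((σ i).symm x) : ℝ) := by
            have h2 : ∑ x, dg U x ≤ ∑ x : Fin n, ∑ i : Fin k, dg (G i) ((σ i).symm x) := by
              apply Finset.sum_le_sum
              intro x _
              exact (dg_placed G σ m x).trans
                (Finset.sum_le_sum_of_subset (Finset.filter_subset _ _))
            exact_mod_cast h2
          refine h1.trans ?_
          rw [Finset.sum_comm]
          calc ∑ i : Fin k, ∑ x : Fin n, (dg (G i) ((σ i).symm x) : ℝ)
              = ∑ i : Fin k, ((∑ v, dg (G i) v : ℕ) : ℝ) := by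
                apply Finset.sum_congr rfl
                intro i _
                rw [Equiv.sum_comp (σ i).symm (fun v => (dg (G i) v : ℝ)), Nat.cast_sum]
            _ ≤ ∑ _i : Fin k, W := Finset.sum_le_sum (fun i _ => hW i)
            _ = k * W := by rw [Finset.sum_const, nsmul_eq_mul, Finset.card_univ,
                Fintype.card_fin])
        (by rw [hCcard]; exact hcard)
        (by rw [hCcard]; exact hnum)
      refine ⟨Function.update σ j σj, ?_, ?_⟩
      · intro i hi a
        by_cases hij : i = j
        · rw [hij, Function.update_self]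
          exact hj2 (pos a, τ a j) (Finset.mem_image.mpr ⟨a, Finset.mem_univ _, rfl⟩)
        · rw [Function.update_of_ne hij]
          apply hσ1
          have : i.1 ≠ m := fun h => hij (Fin.ext h)
          omega
      · have key : ∀ i : Fin k, i.1 < m → ∀ x y, (G i).Adj ((σ i).symm x) ((σ i).symm y) →
            ¬ (G j).Adj (σj.symm x) (σj.symm y) := by
          intro i hi x y h1 h2
          have h3 := hj1 _ _ h2
          rw [Equiv.apply_symm_apply, Equiv.apply_symm_apply] at h3
          exact h3 ⟨i, hi, h1⟩
        have lt_of_ne : ∀ i : Fin k, i.1 < m + 1 → i ≠ j → i.1 < m := by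
          intro i hi hij
          have : i.1 ≠ m := fun h => hij (Fin.ext h)
          omega
        intro i i' hi hi' hii x y
        by_cases h1 : i = j
        · have h2 : i' ≠ j := fun h => hii (h1.trans h.symm)
          rw [Function.update_of_ne h2]
          intro h3 h4
          rw [h1, Function.update_self] at h3
          exact key i' (lt_of_ne i' hi' h2) x y h4 h3
        · rw [Function.update_of_ne h1]
          by_cases h2 : i' = j
          · intro h3 h4
            rw [h2, Function.update_self] at h4
            exact key i (lt_of_ne i hi h1) x y h3 h4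
          · rw [Function.update_of_ne h2]
            exact hσ2 i i' (lt_of_ne i hi h1) (lt_of_ne i' hi' h2) hii x y
  obtain ⟨σ, _, hσ⟩ := main k le_rfl
  exact ⟨σ, fun i j hij x y => hσ i j i.2 j.2 hij x y⟩

end Pool.Agent.Helper852.K
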