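import Pool.Agent.Helper852.Extend

set_option autoImplicit false

/-!
Extending a conflict-free core to a packing which extends the core.
-/

namespace Pool.Agent.Helper852.K

open Finset Classical Pool.Agent.Helper852.Cnt Pool.Agent.Helper852.LLL Pool.Agent.Helper852.Grd

variable {n : ℕ}

theorem extendC (G H : SimpleGraph (Fin n)) (C : Finset (Fin n × Fin n))
    (hfun : ∀ p ∈ C, ∀ p' ∈ C, p.1 = p'.1 → p = p')
    (hinj : ∀ p ∈ C, ∀ p' ∈ C, p.2 = p'.2 → p = p')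
    (hconf : ∀ p ∈ C, ∀ p' ∈ C, G.Adj p.1 p'.1 → ¬ H.Adj p.2 p'.2)
    (F dl W : ℝ) (hdl : 0 ≤ dl)
    (hF1 : ∀ t, t ∉ C.image Prod.snd → ((univ.filter (fun r => r ∉ C.image Prod.fst ∧
      ∃ p ∈ C, G.Adj p.1 r ∧ H.Adj p.2 t)).card : ℝ) ≤ F)
    (hF2 : ∀ r, r ∉ C.image Prod.fst → ((univ.filter (fun t => t ∉ C.image Prod.snd ∧
      ∃ p ∈ C, G.Adj p.1 r ∧ H.Adj p.2 t)).card : ℝ) ≤ F)
    (hd1 : ∀ t, t ∉ C.image Prod.snd → (dg H t : ℝ) ≤ dl)
    (hd2 : ∀ r, r ∉ C.image Prod.fst → (dg G r : ℝ) ≤ dl)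
    (hW1 : ((∑ v, dg H v : ℕ) : ℝ) ≤ W) (hW2 : ((∑ v, dg G v : ℕ) : ℝ) ≤ W)
    (hCn : C.card + 3 ≤ n)
    (hnum : F / ((n - C.card : ℕ) : ℝ) +
      2 * (dl * W) / (((n - C.card) * (n - C.card - 1) : ℕ) : ℝ) ≤ 1 / 16) :
    ∃ σ : Fin n ≃ Fin n, (∀ u v, H.Adj u v → ¬ G.Adj (σ u) (σ v)) ∧
      ∀ p ∈ C, σ p.2 = p.1 := by
  have hcα : Fintype.card {t : Fin n // t ∉ C.image Prod.snd} = n - C.card :=
    card_compl_image C Prod.snd hinj
  have hcβ : Fintype.card {r : Fin n // r ∉ C.image Prod.fst} = n - C.card :=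
    card_compl_image C Prod.fst hfun
  have e0 : {t : Fin n // t ∉ C.image Prod.snd} ≃ {r : Fin n // r ∉ C.image Prod.fst} :=
    Fintype.equivOfCardEq (hcα.trans hcβ.symm)
  obtain ⟨σ', hσ1, hσ2⟩ := lll_pack e0 (by rw [hcβ]; omega)
    (fun a a' => H.Adj a.1 a'.1) (fun b b' => G.Adj b.1 b'.1)
    (fun a b => ∃ p ∈ C, G.Adj p.1 b.1 ∧ H.Adj p.2 a.1)
    (fun a h => H.irrefl h) (fun b h => G.irrefl h)
    (fun a a' h => h.symm) (fun b b' h => h.symm)
    F dl W hdl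
    (fun a => by
      refine le_trans (Nat.cast_le.mpr ?_) (hF1 a.1 a.2)
      have := card_sub_filter_le (fun r => r ∉ C.image Prod.fst)
        (fun r => ∃ p ∈ C, G.Adj p.1 r ∧ H.Adj p.2 a.1) (fun r => r ∉ C.image Prod.fst ∧
          ∃ p ∈ C, G.Adj p.1 r ∧ H.Adj p.2 a.1) (fun t h1 h2 => ⟨h1, h2⟩)
      convert this)
    (fun b => by
      refine le_trans (Nat.cast_le.mpr ?_) (hF2 b.1 b.2)
      have := card_sub_filter_le (fun t => t ∉ C.image Prod.snd)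
        (fun t => ∃ p ∈ C, G.Adj p.1 b.1 ∧ H.Adj p.2 t) (fun t => t ∉ C.image Prod.snd ∧
          ∃ p ∈ C, G.Adj p.1 b.1 ∧ H.Adj p.2 t) (fun t h1 h2 => ⟨h1, h2⟩)
      convert this)
    (fun a => by
      refine le_trans ?_ (hd1 a.1 a.2)
      have := card_sub_filter_le (fun t => t ∉ C.image Prod.snd)
        (fun t => H.Adj a.1 t) (fun t => H.Adj a.1 t) (fun t h1 h2 => h2)
      exact_mod_cast this)
    (fun b => by
      refine le_trans ?_ (hd2 b.1 b.2)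
      have := card_sub_filter_le (fun t => t ∉ C.image Prod.fst)
        (fun t => G.Adj b.1 t) (fun t => G.Adj b.1 t) (fun t h1 h2 => h2)
      exact_mod_cast this)
    (by
      refine le_trans ?_ hW1
      have := card_pairs_le (fun t => t ∉ C.image Prod.snd) H
      exact_mod_cast this)
    (by
      refine le_trans ?_ hW2
      have := card_pairs_le (fun t => t ∉ C.image Prod.fst) G
      exact_mod_cast this)
    (by rw [hcβ]; exact hnum)
  have hex : ∀ h : Fin n, ∃ r : Fin n, (r, h) ∈ C ∨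
      ∃ hh : h ∉ C.image Prod.snd, r = (σ' ⟨h, hh⟩).1 := by
    intro h
    by_cases hh : h ∈ C.image Prod.snd
    · obtain ⟨⟨r, h'⟩, hp, he⟩ := Finset.mem_image.mp hh
      simp only at he
      subst he
      exact ⟨r, Or.inl hp⟩
    · exact ⟨(σ' ⟨h, hh⟩).1, Or.inr ⟨hh, rfl⟩⟩
  choose f hf using hex
  have hinjf : Function.Injective f := by
    intro h h' he
    rcases hf h with h1 | ⟨hh, h1⟩
    · rcases hf h' with h2 | ⟨hh', h2⟩
      · have := hfun _ h1 _ h2 he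
        exact congrArg Prod.snd this
      · exfalso
        apply (σ' ⟨h', hh'⟩).2
        rw [← h2, ← he]
        exact Finset.mem_image.mpr ⟨_, h1, rfl⟩
    · rcases hf h' with h2 | ⟨hh', h2⟩
      · exfalso
        apply (σ' ⟨h, hh⟩).2
        rw [← h1, he]
        exact Finset.mem_image.mpr ⟨_, h2, rfl⟩
      · rw [h1, h2] at he
        have := σ'.injective (Subtype.ext he)
        exact congrArg Subtype.val this
  refine ⟨Equiv.ofBijective f (Finite.injective_iff_bijective.mp hinjf), ?_, ?_⟩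
  swap
  · intro p hp
    rw [Equiv.ofBijective_apply]
    rcases hf p.2 with h1 | ⟨hh, _⟩
    · have h2 := hinj _ h1 p hp rfl
      rw [← h2]
    · exact absurd (Finset.mem_image.mpr ⟨p, hp, rfl⟩) hh
  intro u v huv hadj
  rw [Equiv.ofBijective_apply, Equiv.ofBijective_apply] at hadj
  rcases hf u with h1 | ⟨hh, h1⟩
  · rcases hf v with h2 | ⟨hh', h2⟩
    · exact hconf _ h1 _ h2 hadj huv
    · rw [h2] at hadj
      exact hσ1 ⟨v, hh'⟩ ⟨_, h1, hadj, huv⟩
  · rcases hf v with h2 | ⟨hh', h2⟩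
    · rw [h1] at hadj
      exact hσ1 ⟨u, hh⟩ ⟨_, h2, hadj.symm, huv.symm⟩
    · rw [h1, h2] at hadj
      exact hσ2 ⟨u, hh⟩ ⟨v, hh'⟩ huv hadj

end Pool.Agent.Helper852.K
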