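import Pool.Agent.Helper852.K.Round2
import Pool.Agent.Helper852.K.CorePack

set_option autoImplicit false

/-!
Packing from structural data.
-/

namespace Pool.Agent.Helper852.K

open Finset Classical Pool.Agent.Helper852.Cnt

variable {n k : ℕ} {G : Fin k → SimpleGraph (Fin n)}

theorem fam_pack (F : Fam n k G) (cm : Fin k → ℝ)
    (hcm : ∀ j a, (F.S j → a = true) → cm j ≤ ((F.cl j a).card : ℝ)) (N1 N2 d0 W M : ℝ)
    (hN1 : ((k * (F.NB + k) : ℕ) : ℝ) ≤ N1)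
    (hN2 : (((k * (F.NB + k)) * (k * F.K) : ℕ) : ℝ) ≤ N2)
    (hnum1 : ∀ j, F.NB + 2 * k + k * F.dm j + N1 * (1 + F.K + F.K * F.s) < cm j)
    (hnum2 : ∀ j, N1 + (k * F.dm j + N1 * F.K) + N2 + (k * F.dm j + N2 * F.s) +
      N2 * (1 + F.K + F.K * F.s) < cm j)
    (hd0 : ∀ j, F.dm j ≤ d0) (hd00 : 0 ≤ d0)
    (hW : ∀ i, ((∑ v, dg (G i) v : ℕ) : ℝ) ≤ W) (hW0 : 0 ≤ W)
    (hM : 0 < M) (hMn : M ≤ n - (N1 + N2) - 3)
    (hnum3 : (k * ((k * d0 + N1 * F.K) + ((k * d0 + N2 * F.s) + N2 * F.K))) / M +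
      2 * ((k * d0) * (k * W)) / (M * M) ≤ 1 / 16) :
    ∃ σ : Fin k → (Fin n ≃ Fin n), ∀ i j, i ≠ j → ∀ x y,
      (G i).Adj ((σ i).symm x) ((σ i).symm y) → ¬ (G j).Adj ((σ j).symm x) ((σ j).symm y) := by
  have hs := F.hs
  obtain ⟨Z⟩ := F.exists_ch1 cm hcm (by
    intro j
    have h1 : ((k * (F.NB + k) : ℕ) : ℝ) * (1 + F.K + F.K * F.s) ≤
        N1 * (1 + F.K + F.K * F.s) := mul_le_mul_of_nonneg_right hN1 (by positivity)
    have h2 := hnum1 j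
    linarith)
  obtain ⟨Y⟩ := Z.exists_ch2 cm hcm N1 N2 hN1 hN2 hnum2
  have hc1 : (Fintype.card F.I1 : ℝ) ≤ N1 := by
    refine le_trans ?_ hN1
    exact_mod_cast F.card_I1
  have hc2 : (Fintype.card Z.I2 : ℝ) ≤ N2 := by
    refine le_trans ?_ hN2
    exact_mod_cast Z.card_I2
  have hN10 : 0 ≤ N1 := le_trans (Nat.cast_nonneg _) hN1
  have hN20 : 0 ≤ N2 := le_trans (Nat.cast_nonneg _) hN2
  have hcard : Fintype.card (F.I1 ⊕ Z.I2) = Fintype.card F.I1 + Fintype.card Z.I2 :=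
    Fintype.card_sum
  have hcr : (Fintype.card (F.I1 ⊕ Z.I2) : ℝ) ≤ N1 + N2 := by
    rw [hcard]
    push_cast
    linarith
  have hn3 : Fintype.card (F.I1 ⊕ Z.I2) + 3 ≤ n := by
    have h1 : (Fintype.card (F.I1 ⊕ Z.I2) : ℝ) + 3 ≤ n := by linarith
    exact_mod_cast h1
  have hemb : Fintype.card (F.I1 ⊕ Z.I2) ≤ Fintype.card (Fin n) := by
    rw [Fintype.card_fin]
    omega
  obtain ⟨pos⟩ := Function.Embedding.nonempty_of_card_le hemb
  have hMC : M ≤ ((n - Fintype.card (F.I1 ⊕ Z.I2) : ℕ) : ℝ) - 3 := by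
    have h1 : (n : ℝ) - Fintype.card (F.I1 ⊕ Z.I2) ≤
        ((n - Fintype.card (F.I1 ⊕ Z.I2) : ℕ) : ℝ) := by
      rw [sub_le_iff_le_add]
      have : n ≤ (n - Fintype.card (F.I1 ⊕ Z.I2)) + Fintype.card (F.I1 ⊕ Z.I2) := by omega
      exact_mod_cast this
    linarith
  set w : ℝ := (k * d0 + N1 * F.K) + ((k * d0 + N2 * F.s) + N2 * F.K) with hw
  have hw0 : 0 ≤ w := by positivity
  apply pack_of_core G (ι := F.I1 ⊕ Z.I2) (fun a i => Y.T a i) pos pos.injective Y.T_inj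
    (fun a a' i j hij h1 => Y.T_conf a a' i j hij h1) F.B d0 w W hd00 hw0
    (fun i v h => (Y.T_K1 i v h).trans (hd0 i)) (fun a i j hij hB q hq => Y.T_K2 a i j hij hB q hq)
  · intro i
    refine (Y.T_K3 i N1 N2 hN1 hN2).trans ?_
    have h1 : (k : ℝ) * F.dm i ≤ k * d0 := mul_le_mul_of_nonneg_left (hd0 i) (Nat.cast_nonneg _)
    linarith
  · exact hW
  · exact hW0
  · exact hn3
  · set m := n - Fintype.card (F.I1 ⊕ Z.I2) with hm
    have hM1 : M ≤ (m : ℝ) := by linarith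
    have hM2 : M * M ≤ ((m * (m - 1) : ℕ) : ℝ) := by
      have h3 : 3 ≤ m := by omega
      have h1 : ((m - 1 : ℕ) : ℝ) = (m : ℝ) - 1 := by
        rw [Nat.cast_sub (by omega)]
        norm_num
      rw [Nat.cast_mul, h1]
      apply mul_le_mul hM1 (by linarith) hM.le (by linarith)
    have h3 : (k * w) / (m : ℝ) ≤ (k * w) / M :=
      div_le_div_of_nonneg_left (by positivity) hM hM1
    have h4 : 2 * ((k * d0) * (k * W)) / ((m * (m - 1) : ℕ) : ℝ) ≤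
        2 * ((k * d0) * (k * W)) / (M * M) :=
      div_le_div_of_nonneg_left (by positivity) (by positivity) hM2
    linarith

end Pool.Agent.Helper852.K
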