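import Pool.Agent.Helper852.K.One

set_option autoImplicit false

/-!
Choosing a level with small medium weight.
-/

namespace Pool.Agent.Helper852.K

open Finset Classical Pool.Agent.Helper852.Cnt

variable {n : ℕ}

theorem med_disjoint (G0 : SimpleGraph (Fin n)) (L : ℕ → ℕ) (hL : Monotone L) (v : Fin n)
    (M : ℕ) : ((range M).filter (fun s => v ∈ Med G0 (L s) (L (s + 1)))).card ≤ 1 := by
  rw [Finset.card_le_one]
  have key : ∀ s s', s < s' → v ∈ Med G0 (L s) (L (s + 1)) →
      v ∈ Med G0 (L s') (L (s' + 1)) → False := by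
    intro s s' hss h1 h2
    have h3 := (Finset.mem_filter.mp h1).2.1
    have h4 := (Finset.mem_filter.mp h2).2.2
    apply h4
    refine h3.trans (Nat.mul_le_mul_right _ ?_)
    exact hL (by omega)
  intro s hs s' hs'
  have h1 := (Finset.mem_filter.mp hs).2
  have h2 := (Finset.mem_filter.mp hs').2
  rcases lt_trichotomy s s' with h | h | h
  · exact absurd (key s s' h h1 h2) not_false
  · exact h
  · exact absurd (key s' s h h2 h1) not_false

theorem pigeon {k : ℕ} (G : Fin k → SimpleGraph (Fin n))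
    (he : ∀ i, (G i).edgeFinset.card ≤ n) (L : ℕ → ℕ) (hL : Monotone L) (M : ℕ) (y : ℝ)
    (hy : 0 ≤ y) (hM : (k : ℝ) * (2 * n) < M * y) :
    ∃ s, s < M ∧ ∀ i, ∑ v ∈ Med (G i) (L s) (L (s + 1)), (dg (G i) v : ℝ) ≤ y := by
  by_contra hcon
  push Not at hcon
  have h1 : ∀ s ∈ range M, y ≤ ∑ i : Fin k,
      ∑ v ∈ Med (G i) (L s) (L (s + 1)), (dg (G i) v : ℝ) := by
    intro s hs
    obtain ⟨i, hi⟩ := hcon s (Finset.mem_range.mp hs)
    refine hi.le.trans ?_
    exact Finset.single_le_sum (f := fun i => ∑ v ∈ Med (G i) (L s) (L (s + 1)),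
      (dg (G i) v : ℝ)) (fun i _ => Finset.sum_nonneg (fun _ _ => Nat.cast_nonneg _))
      (Finset.mem_univ i)
  have h2 := Finset.sum_le_sum h1
  rw [Finset.sum_const, nsmul_eq_mul, Finset.card_range, Finset.sum_comm] at h2
  have h3 : ∀ i : Fin k, ∑ s ∈ range M, ∑ v ∈ Med (G i) (L s) (L (s + 1)),
      (dg (G i) v : ℝ) ≤ 2 * n := by
    intro i
    have h4 : ∑ s ∈ range M, ∑ v ∈ Med (G i) (L s) (L (s + 1)), (dg (G i) v : ℝ) =
        ∑ v : Fin n, ∑ s ∈ range M,
          (if v ∈ Med (G i) (L s) (L (s + 1)) then (dg (G i) v : ℝ) else 0) := by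
      rw [Finset.sum_comm]
      apply Finset.sum_congr rfl
      intro s _
      rw [Finset.sum_ite_mem, Finset.univ_inter]
    rw [h4]
    calc ∑ v : Fin n, ∑ s ∈ range M,
          (if v ∈ Med (G i) (L s) (L (s + 1)) then (dg (G i) v : ℝ) else 0)
        ≤ ∑ v : Fin n, (dg (G i) v : ℝ) := by
          apply Finset.sum_le_sum
          intro v _
          rw [← Finset.sum_filter, Finset.sum_const, nsmul_eq_mul]
          have h5 : (((range M).filter (fun s => v ∈ Med (G i) (L s) (L (s + 1)))).card : ℝ) ≤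
              1 := by
            exact_mod_cast med_disjoint (G i) L hL v M
          have h6 : (0 : ℝ) ≤ dg (G i) v := Nat.cast_nonneg _
          nlinarith
      _ = ((∑ v, dg (G i) v : ℕ) : ℝ) := by rw [Nat.cast_sum]
      _ ≤ 2 * n := by
          rw [sum_dg]
          have := he i
          have h7 : 2 * (G i).edgeFinset.card ≤ 2 * n := by omega
          exact_mod_cast h7
  have h8 : ∑ i : Fin k, ∑ s ∈ range M, ∑ v ∈ Med (G i) (L s) (L (s + 1)),
      (dg (G i) v : ℝ) ≤ k * (2 * n) := by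
    refine (Finset.sum_le_sum (fun i _ => h3 i)).trans ?_
    rw [Finset.sum_const, nsmul_eq_mul, Finset.card_univ, Fintype.card_fin]
  linarith

end Pool.Agent.Helper852.K
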