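import Pool.Agent.Helper852.K.Num
import Pool.Agent.Helper852.K.FamPack
import Pool.Agent.Helper852.K.Pigeon

set_option autoImplicit false

/-!
The final theorem on packing a family of sparse graphs.
-/

namespace Pool.Agent.Helper852.K

open Finset Classical Pool.Agent.Helper852.Cnt

variable {n k : ℕ}

/-- Assemble the structural data of the single graphs. -/
noncomputable def mkFam (G : Fin k → SimpleGraph (Fin n)) (K NB : ℕ) (s N1 N2 d0 : ℝ)
    (hK : 1 ≤ K) (hs : 0 ≤ s) (D : ∀ j, One (G j) k j K NB s N1 N2 d0) : Fam n k G where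
  S j := (D j).S
  b j := (D j).b
  B j := (D j).B
  B1 j := (D j).B1
  cl j := (D j).cl
  c j := (D j).c
  K := K
  NB := NB
  s := s
  dm j := (D j).dm
  hK := hK
  hs := hs
  hdm j := (D j).hdm
  hSB j := (D j).hSB
  hNB j := (D j).hNB
  hcd j := (D j).hcd
  hcc j := (D j).hcc
  hcb j := (D j).hcb
  hcB j := (D j).hcB
  clB j := (D j).clB
  cla j := (D j).cla
  clS j := (D j).clS
  clK j := (D j).clK
  cls j := (D j).cls
  hdeg j := (D j).hdeg

/-- Number of first-round tuples. -/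
def N1f (k L : ℕ) : ℕ := k * (2 * L + k)

/-- Number of second-round tuples. -/
def N2f (k K L : ℕ) : ℕ := (k * (2 * L + k)) * (k * K)

/-- The sequence of thresholds. -/
def Lf (k E K : ℕ) : ℕ → ℕ
  | 0 => 100 * (k + 1) * E
  | s + 1 => Lf k E K s +
      1000 * (E * ((K + 2) * (N1f k (Lf k E K s) + N2f k K (Lf k E K s) + 1)))

theorem Lf_mono (k E K : ℕ) : Monotone (Lf k E K) := by
  apply monotone_nat_of_le_succ
  intro s
  show Lf k E K s ≤ Lf k E K s + _
  exact Nat.le_add_right _ _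

theorem N1f_mono (k : ℕ) : Monotone (N1f k) := by
  intro a b h
  unfold N1f
  exact Nat.mul_le_mul_left _ (Nat.add_le_add_right (Nat.mul_le_mul_left _ h) _)

theorem N2f_mono (k K : ℕ) : Monotone (N2f k K) := by
  intro a b h
  unfold N2f
  exact Nat.mul_le_mul_right _
    (Nat.mul_le_mul_left _ (Nat.add_le_add_right (Nat.mul_le_mul_left _ h) _))

/-- The threshold for `n`. -/
def Nf (k E K X : ℕ) : ℕ :=
  1000 * (E * ((K + 2) * (N1f k X + N2f k K X + 1) + 2 * X + 2 * k)) + 12 * E * X ^ 2 +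
    48 * E * X + X + 1 + k

theorem numHyp (k E K s M n : ℕ) (hE : E = 4000 * (k + 1) ^ 2) (hK : 1 ≤ K) (hs : s < M)
    (hn : Nf k E K (Lf k E K M) ≤ n) :
    NumHyp (n : ℝ) k E K (Lf k E K s) (Lf k E K (s + 1)) (N1f k (Lf k E K s))
      (N2f k K (Lf k E K s)) := by
  have hmono := Lf_mono k E K
  have hsM : Lf k E K s ≤ Lf k E K M := hmono hs.le
  refine ⟨Nat.cast_nonneg _, ?_, by exact_mod_cast hK, ?_, Nat.cast_nonneg _,
    Nat.cast_nonneg _, ?_, ?_⟩
  · rw [hE]
    push_cast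
    exact le_refl _
  · have h1 : 100 * (k + 1) * E ≤ Lf k E K s := hmono (Nat.zero_le s)
    exact_mod_cast h1
  · have h1 : 1000 * (E * ((K + 2) * (N1f k (Lf k E K s) + N2f k K (Lf k E K s) + 1))) ≤
        Lf k E K (s + 1) := Nat.le_add_left _ _
    exact_mod_cast h1
  · have h1 := N1f_mono k hsM
    have h2 := N2f_mono k K hsM
    have h3 : 1000 * (E * ((K + 2) * (N1f k (Lf k E K s) + N2f k K (Lf k E K s) + 1) +
        2 * Lf k E K s + 2 * k)) ≤ 1000 * (E * ((K + 2) * (N1f k (Lf k E K M) +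
        N2f k K (Lf k E K M) + 1) + 2 * Lf k E K M + 2 * k)) := by
      gcongr
    have h4 : 1000 * (E * ((K + 2) * (N1f k (Lf k E K s) + N2f k K (Lf k E K s) + 1) +
        2 * Lf k E K s + 2 * k)) ≤ n := by
      refine h3.trans (le_trans ?_ hn)
      unfold Nf
      omega
    exact_mod_cast h4

theorem family_pack (k : ℕ) : ∃ N : ℕ, ∀ n : ℕ, N ≤ n → ∀ G : Fin k → SimpleGraph (Fin n),
    (∀ i, (G i).edgeFinset.card ≤ n - k) →
    ∃ σ : Fin k → (Fin n ≃ Fin n), ∀ i j, i ≠ j → ∀ x y,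
      (G i).Adj ((σ i).symm x) ((σ i).symm y) →
        ¬ (G j).Adj ((σ j).symm x) ((σ j).symm y) := by
  obtain ⟨E, hE⟩ : ∃ E : ℕ, E = 4000 * (k + 1) ^ 2 := ⟨_, rfl⟩
  obtain ⟨K, hK⟩ : ∃ K : ℕ, K = 24 * E := ⟨_, rfl⟩
  obtain ⟨M, hM⟩ : ∃ M : ℕ, M = 24 * (k + 1) * E + 1 := ⟨_, rfl⟩
  have hE4 : 4000 ≤ E := by
    have : 1 ≤ (k + 1) ^ 2 := Nat.one_le_pow _ _ (by omega)
    omega
  have hK1 : 1 ≤ K := by omega
  refine ⟨Nf k E K (Lf k E K M), fun n hn G hG => ?_⟩
  have hX : Lf k E K M + 1 + k ≤ n := by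
    refine le_trans ?_ hn
    unfold Nf
    omega
  have hn0 : 0 < n := by omega
  have hnr : (0 : ℝ) < n := by exact_mod_cast hn0
  have he : ∀ i, (G i).edgeFinset.card + k ≤ n := by
    intro i
    have := hG i
    omega
  have he' : ∀ i, (G i).edgeFinset.card ≤ n := by
    intro i
    have := he i
    omega
  have hEr : (4000 : ℝ) ≤ E := by exact_mod_cast hE4
  have hE0 : (0 : ℝ) < E := by linarith
  obtain ⟨s, hsM, hmed⟩ := pigeon G he' (Lf k E K) (Lf_mono k E K) M ((n : ℝ) / (12 * E))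
    (by positivity) (by
      rw [hM]
      push_cast
      have h1 : ((24 * ((k : ℝ) + 1) * E + 1) * (n / (12 * E))) =
          2 * n * (k + 1) + n / (12 * E) := by
        field_simp
        ring
      rw [h1]
      have h2 : (0 : ℝ) < n / (12 * E) := by positivity
      linarith)
  have H := numHyp k E K s M n hE hK1 hsM hn
  have hLsM : Lf k E K s ≤ Lf k E K M := Lf_mono k E K hsM.le
  have hL0 : 100 * (k + 1) * E ≤ Lf k E K s := Lf_mono k E K (Nat.zero_le s)
  have hL1 : 1 ≤ Lf k E K s := by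
    refine le_trans ?_ hL0
    have : 1 * 1 ≤ (100 * (k + 1)) * E := Nat.mul_le_mul (by omega) (by omega)
    omega
  have hL1' : 1 ≤ Lf k E K (s + 1) := le_trans hL1 (Lf_mono k E K (Nat.le_succ s))
  have hN12 : 12 * E * (Lf k E K s) ^ 2 ≤ n ∧ 48 * E * Lf k E K s ≤ n := by
    have h1 : 12 * E * (Lf k E K s) ^ 2 ≤ 12 * E * (Lf k E K M) ^ 2 :=
      Nat.mul_le_mul_left _ (Nat.pow_le_pow_left hLsM 2)
    have h2 : 48 * E * Lf k E K s ≤ 48 * E * Lf k E K M := Nat.mul_le_mul_left _ hLsM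
    unfold Nf at hn
    constructor
    · omega
    · omega
  have hD : ∀ j, Nonempty (One (G j) k j K (2 * Lf k E K s) ((n : ℝ) / Lf k E K (s + 1))
      (N1f k (Lf k E K s)) (N2f k K (Lf k E K s)) (1 + 2 * (n : ℝ) / E)) := by
    intro j
    by_cases hst : ∃ b, (1 - 1 / (E : ℝ)) * n < (dg (G j) b : ℝ)
    · obtain ⟨b, hb⟩ := hst
      apply one_star (G j) k j E K (2 * Lf k E K s) _ _ _ _ (by omega) hK1 (by omega) (he j) b hb
      · push_cast
        exact H.star1
      · exact H.star2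
      · exact le_refl _
    · push Not at hst
      apply one_nonstar (G j) k j E (Lf k E K s) (Lf k E K (s + 1)) K _ _ _ (by omega) hL1 hL1'
        hK (he j) hst (hmed j) (by omega)
      · have h1 : (12 : ℝ) * (E : ℝ) * (Lf k E K s : ℝ) ^ 2 ≤ (n : ℝ) := by
          exact_mod_cast hN12.1
        have h2 : (3 : ℝ) * (E : ℝ) * ((2 : ℝ) * (Lf k E K s : ℝ)) ^ 2 =
            (12 : ℝ) * (E : ℝ) * (Lf k E K s : ℝ) ^ 2 := by ring
        rw [h2]
        exact h1
      · exact_mod_cast hN12.2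
      · push_cast
        exact H.nonstar1
      · exact H.nonstar2
      · have h1 : (n : ℝ) / Lf k E K s ≤ n / E := by
          apply div_le_div_of_nonneg_left hnr.le hE0
          have h2 : E ≤ Lf k E K s := by
            refine le_trans ?_ hL0
            calc E = 1 * E := (one_mul _).symm
              _ ≤ 100 * (k + 1) * E := Nat.mul_le_mul_right _ (by omega)
          exact_mod_cast h2
        have h3 : 2 * (n : ℝ) / E = 2 * (n / E) := by ring
        have h4 : (0 : ℝ) < n / E := by positivity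
        rw [h3]
        linarith
  have D : ∀ j, One (G j) k j K (2 * Lf k E K s) ((n : ℝ) / Lf k E K (s + 1))
      (N1f k (Lf k E K s)) (N2f k K (Lf k E K s)) (1 + 2 * (n : ℝ) / E) :=
    fun j => (hD j).some
  have hs0 : (0 : ℝ) ≤ (n : ℝ) / Lf k E K (s + 1) := by positivity
  apply fam_pack (mkFam G K (2 * Lf k E K s) ((n : ℝ) / Lf k E K (s + 1))
      (N1f k (Lf k E K s)) (N2f k K (Lf k E K s)) (1 + 2 * (n : ℝ) / E) hK1 hs0 D)
      (fun j => (D j).cm) (fun j => (D j).hcm) (N1f k (Lf k E K s)) (N2f k K (Lf k E K s))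
      (1 + 2 * (n : ℝ) / E) (2 * n) ((n : ℝ) / 2)
  · exact le_refl _
  · exact le_refl _
  · intro j
    exact (D j).hn1
  · intro j
    exact (D j).hn2
  · intro j
    exact (D j).hd0
  · positivity
  · intro i
    rw [sum_dg]
    have := he' i
    have h7 : 2 * (G i).edgeFinset.card ≤ 2 * n := by omega
    exact_mod_cast h7
  · positivity
  · positivity
  · obtain ⟨b1, b2, b3, b4⟩ := H.bounds
    obtain ⟨c1, c2, c3, c4, c5, c6⟩ := H.basic
    have b5 := H.nE
    have hKr : (1 : ℝ) ≤ K := by exact_mod_cast hK1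
    have h1 : (0 : ℝ) ≤ (N1f k (Lf k E K s) : ℝ) := Nat.cast_nonneg _
    have h2 : (0 : ℝ) ≤ (N2f k K (Lf k E K s) : ℝ) := Nat.cast_nonneg _
    have h3 : (N1f k (Lf k E K s) : ℝ) + N2f k K (Lf k E K s) + 1 ≤
        ((K : ℝ) + 2) * (N1f k (Lf k E K s) + N2f k K (Lf k E K s) + 1) := by nlinarith
    have h4 : (0 : ℝ) ≤ (k : ℝ) := Nat.cast_nonneg _
    have h5 : (0 : ℝ) < Lf k E K s := c2
    have h6 : (4000 : ℝ) ≤ n := by
      have : 4000 ≤ n := by
        have h8 : E ≤ Lf k E K s := by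
          refine le_trans ?_ hL0
          calc E = 1 * E := (one_mul _).symm
            _ ≤ 100 * (k + 1) * E := Nat.mul_le_mul_right _ (by omega)
        omega
      exact_mod_cast this
    linarith
  · exact H.final

end Pool.Agent.Helper852.K
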