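import Pool.Agent.Helper852.Counting

set_option autoImplicit false

/-!
Greedy selection of far apart vertices from large classes.
-/

namespace Pool.Agent.Helper852.K

open Finset Classical Pool.Agent.Helper852.Cnt

variable {n : ℕ}

theorem gen_sel {ι : Type} [Fintype ι] (G : SimpleGraph (Fin n)) (B : Finset (Fin n))
    (T : ι → Finset (Fin n)) (Av : Finset (Fin n)) (K : ℕ) (s : ℝ) (hs0 : 0 ≤ s)
    (hK : ∀ a z, z ∈ T a → dg G z ≤ K)
    (hs : ∀ a z, z ∈ T a → ∀ q, q ∉ B → G.Adj z q → (dg G q : ℝ) ≤ s)
    (hcard : ∀ a, (Av.card : ℝ) + Fintype.card ι * (1 + K + K * s) < (T a).card) :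
    ∃ z : ι → Fin n, (∀ a, z a ∈ T a ∧ z a ∉ Av) ∧
      ∀ a a', a ≠ a' → z a ≠ z a' ∧ ¬ G.Adj (z a) (z a') ∧
        ∀ q, q ∉ B → G.Adj (z a) q → ¬ G.Adj (z a') q := by
  have hne : ∀ a, (T a).Nonempty := by
    intro a
    rw [← Finset.card_pos]
    have h1 := hcard a
    have h2 : (0 : ℝ) < (T a).card := by
      refine lt_of_le_of_lt ?_ h1
      positivity
    exact_mod_cast h2
  have main : ∀ S : Finset ι, ∃ z : ι → Fin n, (∀ a ∈ S, z a ∈ T a ∧ z a ∉ Av) ∧
      ∀ a ∈ S, ∀ a' ∈ S, a ≠ a' → z a ≠ z a' ∧ ¬ G.Adj (z a) (z a') ∧
        ∀ q, q ∉ B → G.Adj (z a) q → ¬ G.Adj (z a') q := by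
    intro S
    induction S using Finset.induction_on with
    | empty =>
      refine ⟨fun a => (hne a).choose, ?_, ?_⟩
      · intro a ha
        exact absurd ha (Finset.notMem_empty a)
      · intro a ha
        exact absurd ha (Finset.notMem_empty a)
    | insert a0 S ha0 ih =>
      obtain ⟨z, hz1, hz2⟩ := ih
      set Ex : Finset (Fin n) := Av ∪ S.biUnion (fun a =>
        (insert (z a) (univ.filter (fun u => G.Adj (z a) u))) ∪
          (univ.filter (fun q => q ∉ B ∧ G.Adj (z a) q)).biUnion
            (fun q => univ.filter (fun u => G.Adj q u))) with hEx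
      have hExc : (Ex.card : ℝ) < (T a0).card := by
        refine lt_of_le_of_lt ?_ (hcard a0)
        have h1 : (Ex.card : ℝ) ≤ Av.card + ∑ a ∈ S,
            (((insert (z a) (univ.filter (fun u => G.Adj (z a) u))) ∪
          (univ.filter (fun q => q ∉ B ∧ G.Adj (z a) q)).biUnion
            (fun q => univ.filter (fun u => G.Adj q u))).card : ℝ) := by
          have := (Finset.card_union_le Av (S.biUnion (fun a =>
            (insert (z a) (univ.filter (fun u => G.Adj (z a) u))) ∪
              (univ.filter (fun q => q ∉ B ∧ G.Adj (z a) q)).biUnion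
                (fun q => univ.filter (fun u => G.Adj q u))))).trans
              (Nat.add_le_add_left Finset.card_biUnion_le _)
          exact_mod_cast this
        refine h1.trans ?_
        have h2 : ∀ a ∈ S, (((insert (z a) (univ.filter (fun u => G.Adj (z a) u))) ∪
          (univ.filter (fun q => q ∉ B ∧ G.Adj (z a) q)).biUnion
            (fun q => univ.filter (fun u => G.Adj q u))).card : ℝ) ≤ 1 + K + K * s := by
          intro a ha
          have hdg := hK a (z a) (hz1 a ha).1
          have e1 : (((insert (z a) (univ.filter (fun u => G.Adj (z a) u))) ∪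
            (univ.filter (fun q => q ∉ B ∧ G.Adj (z a) q)).biUnion
              (fun q => univ.filter (fun u => G.Adj q u))).card : ℝ) ≤
              ((insert (z a) (univ.filter (fun u => G.Adj (z a) u))).card : ℝ) +
              ((univ.filter (fun q => q ∉ B ∧ G.Adj (z a) q)).biUnion
              (fun q => univ.filter (fun u => G.Adj q u))).card := by
            exact_mod_cast Finset.card_union_le _ _
          have e2 : ((insert (z a) (univ.filter (fun u => G.Adj (z a) u))).card : ℝ) ≤ 1 + K := by
            have : (insert (z a) (univ.filter (fun u => G.Adj (z a) u))).card ≤ 1 + K := by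
              refine (Finset.card_insert_le _ _).trans ?_
              unfold dg at hdg
              omega
            exact_mod_cast this
          have e3 : (((univ.filter (fun q => q ∉ B ∧ G.Adj (z a) q)).biUnion
              (fun q => univ.filter (fun u => G.Adj q u))).card : ℝ) ≤ K * s := by
            have f1 : (((univ.filter (fun q => q ∉ B ∧ G.Adj (z a) q)).biUnion
              (fun q => univ.filter (fun u => G.Adj q u))).card : ℝ) ≤
                ∑ q ∈ univ.filter (fun q => q ∉ B ∧ G.Adj (z a) q), (dg G q : ℝ) := by
              have : ((univ.filter (fun q => q ∉ B ∧ G.Adj (z a) q)).biUnion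
                (fun q => univ.filter (fun u => G.Adj q u))).card ≤
                ∑ q ∈ univ.filter (fun q => q ∉ B ∧ G.Adj (z a) q), dg G q :=
                Finset.card_biUnion_le
              exact_mod_cast this
            have f2 : ∑ q ∈ univ.filter (fun q => q ∉ B ∧ G.Adj (z a) q), (dg G q : ℝ) ≤
                ∑ _q ∈ univ.filter (fun q => q ∉ B ∧ G.Adj (z a) q), s :=
              Finset.sum_le_sum (fun q hq =>
                hs a (z a) (hz1 a ha).1 q (Finset.mem_filter.mp hq).2.1
                  (Finset.mem_filter.mp hq).2.2)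
            have f3 : ((univ.filter (fun q => q ∉ B ∧ G.Adj (z a) q)).card : ℝ) ≤ K := by
              have : (univ.filter (fun q => q ∉ B ∧ G.Adj (z a) q)).card ≤ dg G (z a) := by
                unfold dg
                apply Finset.card_le_card
                intro q hq
                exact Finset.mem_filter.mpr ⟨Finset.mem_univ _, (Finset.mem_filter.mp hq).2.2⟩
              exact_mod_cast this.trans hdg
            rw [Finset.sum_const, nsmul_eq_mul] at f2
            exact (f1.trans f2).trans (mul_le_mul_of_nonneg_right f3 hs0)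
          linarith
        have h3 : ∑ a ∈ S, (((insert (z a) (univ.filter (fun u => G.Adj (z a) u))) ∪
          (univ.filter (fun q => q ∉ B ∧ G.Adj (z a) q)).biUnion
            (fun q => univ.filter (fun u => G.Adj q u))).card : ℝ) ≤
            Fintype.card ι * (1 + K + K * s) := by
          refine (Finset.sum_le_sum h2).trans ?_
          rw [Finset.sum_const, nsmul_eq_mul]
          apply mul_le_mul_of_nonneg_right _ (by positivity)
          exact_mod_cast Finset.card_le_univ S
        linarith
      have hex : ∃ c ∈ T a0, c ∉ Ex := by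
        by_contra hcon
        push Not at hcon
        have h1 : T a0 ⊆ Ex := hcon
        have h2 : ((T a0).card : ℝ) ≤ Ex.card := by exact_mod_cast Finset.card_le_card h1
        linarith
      obtain ⟨c, hcT, hcEx⟩ := hex
      rw [hEx, Finset.mem_union, not_or] at hcEx
      obtain ⟨hcAv, hcS⟩ := hcEx
      have hc : ∀ a ∈ S, c ≠ z a ∧ ¬ G.Adj (z a) c ∧
          ∀ q, q ∉ B → G.Adj (z a) q → ¬ G.Adj c q := by
        intro a ha
        have h1 : c ∉ (insert (z a) (univ.filter (fun u => G.Adj (z a) u))) ∪
          (univ.filter (fun q => q ∉ B ∧ G.Adj (z a) q)).biUnion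
            (fun q => univ.filter (fun u => G.Adj q u)) := by
          intro h
          exact hcS (Finset.mem_biUnion.mpr ⟨a, ha, h⟩)
        rw [Finset.mem_union, not_or] at h1
        obtain ⟨h2, h3⟩ := h1
        refine ⟨?_, ?_, ?_⟩
        · intro h
          exact h2 (Finset.mem_insert.mpr (Or.inl h))
        · intro h
          exact h2 (Finset.mem_insert.mpr (Or.inr (Finset.mem_filter.mpr
            ⟨Finset.mem_univ _, h⟩)))
        · intro q hqB hq hcq
          exact h3 (Finset.mem_biUnion.mpr ⟨q, Finset.mem_filter.mpr
            ⟨Finset.mem_univ _, hqB, hq⟩, Finset.mem_filter.mpr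
              ⟨Finset.mem_univ _, hcq.symm⟩⟩)
      have hne0 : ∀ a ∈ S, a ≠ a0 := fun a ha h => ha0 (h ▸ ha)
      have hup : ∀ a ∈ S, Function.update z a0 c a = z a :=
        fun a ha => Function.update_of_ne (hne0 a ha) _ _
      have hself : Function.update z a0 c a0 = c := Function.update_self _ _ _
      refine ⟨Function.update z a0 c, ?_, ?_⟩
      · intro a ha
        rcases Finset.mem_insert.mp ha with h | ha
        · rw [h, hself]
          exact ⟨hcT, hcAv⟩
        · rw [hup a ha]
          exact hz1 a ha
      · intro a ha a' ha' haa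
        rcases Finset.mem_insert.mp ha with h | ha
        · rcases Finset.mem_insert.mp ha' with h' | ha'
          · exact absurd (h.trans h'.symm) haa
          · rw [h, hself, hup a' ha']
            obtain ⟨h1, h2, h3⟩ := hc a' ha'
            exact ⟨h1, fun h => h2 h.symm, fun q hq hcq hzq => h3 q hq hzq hcq⟩
        · rcases Finset.mem_insert.mp ha' with h' | ha'
          · rw [h', hself, hup a ha]
            obtain ⟨h1, h2, h3⟩ := hc a ha
            exact ⟨h1.symm, h2, h3⟩
          · rw [hup a ha, hup a' ha']
            exact hz2 a ha a' ha' haa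
  obtain ⟨z, h1, h2⟩ := main univ
  exact ⟨z, fun a => h1 a (Finset.mem_univ _), fun a a' => h2 a (Finset.mem_univ _) a'
    (Finset.mem_univ _)⟩

end Pool.Agent.Helper852.K
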