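import Mathlib

set_option autoImplicit false

/-!
Numerical estimates for the family packing.
-/

namespace Pool.Agent.Helper852.K

theorem frac_bound (n E D T c : ℝ) (hn : 0 ≤ n) (hE : 0 < E) (hD : 0 < D) (hc : 0 < c)
    (h : c * (E * T) ≤ D) : T * (n / D) ≤ (1 / c) * (n / E) := by
  have h1 : T * (n / D) = (T * n) / D := by ring
  have h2 : (1 / c) * (n / E) = n / (c * E) := by
    field_simp
  rw [h1, h2, div_le_div_iff₀ hD (by positivity)]
  calc T * n * (c * E) = n * (c * (E * T)) := by ring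
    _ ≤ n * D := mul_le_mul_of_nonneg_left h hn

/-- Common hypotheses. -/
structure NumHyp (n k E K L L' N1 N2 : ℝ) : Prop where
  hk : 0 ≤ k
  hE : 4000 * (k + 1) ^ 2 ≤ E
  hK : 1 ≤ K
  hL : 100 * (k + 1) * E ≤ L
  hN1 : 0 ≤ N1
  hN2 : 0 ≤ N2
  hL' : 1000 * (E * ((K + 2) * (N1 + N2 + 1))) ≤ L'
  hn : 1000 * (E * ((K + 2) * (N1 + N2 + 1) + 2 * L + 2 * k)) ≤ n

variable {n k E K L L' N1 N2 : ℝ}

theorem NumHyp.basic (h : NumHyp n k E K L L' N1 N2) : 4000 ≤ E ∧ 0 < L ∧ 0 < L' ∧ 0 < n ∧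
    4000 * k ^ 2 ≤ E ∧ 4000 * k ≤ E := by
  obtain ⟨hk, hE, hK, hL, hN1, hN2, hL', hn⟩ := h
  have h1 : (1 : ℝ) ≤ (k + 1) ^ 2 := by nlinarith
  have hE1 : 4000 ≤ E := by linarith
  have hE0 : 0 < E := by linarith
  have hL0 : 0 < L := by
    have : 0 < 100 * (k + 1) * E := by positivity
    linarith
  refine ⟨hE1, hL0, ?_, ?_, ?_, ?_⟩
  · have : 0 < 1000 * (E * ((K + 2) * (N1 + N2 + 1))) := by positivity
    linarith
  · have : 0 < 1000 * (E * ((K + 2) * (N1 + N2 + 1) + 2 * L + 2 * k)) := by positivity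
    linarith
  · nlinarith
  · nlinarith

theorem NumHyp.bounds (h : NumHyp n k E K L L' N1 N2) :
    k * (n / L) ≤ (1 / 100) * (n / E) ∧
    ((K + 2) * (N1 + N2 + 1)) * (n / L') ≤ (1 / 1000) * (n / E) ∧
    (K + 2) * (N1 + N2 + 1) + 2 * L + 2 * k ≤ (1 / 1000) * (n / E) ∧
    k * (2 * n / E) ≤ n / 2000 := by
  obtain ⟨hE1, hL0, hL'0, hn0, hk2, hk1⟩ := h.basic
  obtain ⟨hk, hE, hK, hL, hN1, hN2, hL', hn⟩ := h
  have hE0 : 0 < E := by linarith
  refine ⟨?_, ?_, ?_, ?_⟩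
  · apply frac_bound n E L k 100 hn0.le hE0 hL0 (by norm_num)
    nlinarith
  · exact frac_bound n E L' _ 1000 hn0.le hE0 hL'0 (by norm_num) hL'
  · have h1 : (1 / 1000) * (n / E) = n / (1000 * E) := by field_simp
    rw [h1, le_div_iff₀ (by positivity)]
    linarith
  · have h1 : k * (2 * n / E) = (2 * k * n) / E := by ring
    rw [h1, div_le_iff₀ hE0]
    have h2 : n / 2000 * (4000 * k) ≤ n / 2000 * E :=
      mul_le_mul_of_nonneg_left hk1 (by positivity)
    linarith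

theorem NumHyp.nonstar1 (h : NumHyp n k E K L L' N1 N2) :
    2 * L + 2 * k + k * (n / L) + N1 * (1 + K + K * (n / L')) < n / (8 * E) := by
  obtain ⟨b1, b2, b3, _⟩ := h.bounds
  obtain ⟨hE1, hL0, hL'0, hn0, _, _⟩ := h.basic
  obtain ⟨hk, hE, hK, hL, hN1, hN2, hL', hn⟩ := h
  have hE0 : 0 < E := by linarith
  have hx : 0 < n / L' := by positivity
  have hy : 0 < n / E := by positivity
  have h1 : n / (8 * E) = (1 / 8) * (n / E) := by field_simp
  rw [h1]
  have h2 : N1 * K * (n / L') ≤ ((K + 2) * (N1 + N2 + 1)) * (n / L') := by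
    apply mul_le_mul_of_nonneg_right _ hx.le
    nlinarith
  have h3 : N1 * (1 + K) ≤ (K + 2) * (N1 + N2 + 1) := by nlinarith
  have h4 : N1 * (1 + K + K * (n / L')) = N1 * (1 + K) + N1 * K * (n / L') := by ring
  rw [h4]
  linarith

theorem NumHyp.nonstar2 (h : NumHyp n k E K L L' N1 N2) :
    N1 + (k * (n / L) + N1 * K) + N2 + (k * (n / L) + N2 * (n / L')) +
      N2 * (1 + K + K * (n / L')) < n / (8 * E) := by
  obtain ⟨b1, b2, b3, _⟩ := h.bounds
  obtain ⟨hE1, hL0, hL'0, hn0, _, _⟩ := h.basic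
  obtain ⟨hk, hE, hK, hL, hN1, hN2, hL', hn⟩ := h
  have hE0 : 0 < E := by linarith
  have hx : 0 < n / L' := by positivity
  have hy : 0 < n / E := by positivity
  have h1 : n / (8 * E) = (1 / 8) * (n / E) := by field_simp
  rw [h1]
  have h2 : N2 * (1 + K) * (n / L') ≤ ((K + 2) * (N1 + N2 + 1)) * (n / L') := by
    apply mul_le_mul_of_nonneg_right _ hx.le
    nlinarith
  have h3 : N1 * (1 + K) + N2 * (2 + K) ≤ (K + 2) * (N1 + N2 + 1) := by nlinarith
  have h4 : N1 + (k * (n / L) + N1 * K) + N2 + (k * (n / L) + N2 * (n / L')) +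
      N2 * (1 + K + K * (n / L')) = (N1 * (1 + K) + N2 * (2 + K)) + 2 * (k * (n / L)) +
      N2 * (1 + K) * (n / L') := by ring
  rw [h4]
  linarith

theorem NumHyp.nE (h : NumHyp n k E K L L' N1 N2) : n / E ≤ n / 4000 := by
  obtain ⟨hE1, hL0, hL'0, hn0, _, _⟩ := h.basic
  exact div_le_div_of_nonneg_left hn0.le (by norm_num) hE1

theorem NumHyp.star1 (h : NumHyp n k E K L L' N1 N2) :
    2 * L + 2 * k + k * (1 + 2 * n / E) + N1 * (1 + K + K * (n / L')) < n / 2 := by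
  obtain ⟨b1, b2, b3, b4⟩ := h.bounds
  have b5 := h.nE
  obtain ⟨hE1, hL0, hL'0, hn0, _, _⟩ := h.basic
  obtain ⟨hk, hE, hK, hL, hN1, hN2, hL', hn⟩ := h
  have hE0 : 0 < E := by linarith
  have hx : 0 < n / L' := by positivity
  have hy : 0 < n / E := by positivity
  have h2 : N1 * K * (n / L') ≤ ((K + 2) * (N1 + N2 + 1)) * (n / L') := by
    apply mul_le_mul_of_nonneg_right _ hx.le
    nlinarith
  have h3 : N1 * (1 + K) ≤ (K + 2) * (N1 + N2 + 1) := by nlinarith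
  have h5 : 0 ≤ (K + 2) * (N1 + N2 + 1) := by positivity
  have h4 : 2 * L + 2 * k + k * (1 + 2 * n / E) + N1 * (1 + K + K * (n / L')) =
      2 * L + 3 * k + k * (2 * n / E) + N1 * (1 + K) + N1 * K * (n / L') := by ring
  rw [h4]
  linarith

theorem NumHyp.star2 (h : NumHyp n k E K L L' N1 N2) :
    N1 + (k * (1 + 2 * n / E) + N1 * K) + N2 + (k * (1 + 2 * n / E) + N2 * (n / L')) +
      N2 * (1 + K + K * (n / L')) < n / 2 := by
  obtain ⟨b1, b2, b3, b4⟩ := h.bounds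
  have b5 := h.nE
  obtain ⟨hE1, hL0, hL'0, hn0, _, _⟩ := h.basic
  obtain ⟨hk, hE, hK, hL, hN1, hN2, hL', hn⟩ := h
  have hE0 : 0 < E := by linarith
  have hx : 0 < n / L' := by positivity
  have hy : 0 < n / E := by positivity
  have h2 : N2 * (1 + K) * (n / L') ≤ ((K + 2) * (N1 + N2 + 1)) * (n / L') := by
    apply mul_le_mul_of_nonneg_right _ hx.le
    nlinarith
  have h3 : N1 * (1 + K) + N2 * (2 + K) ≤ (K + 2) * (N1 + N2 + 1) := by nlinarith
  have h5 : 0 ≤ (K + 2) * (N1 + N2 + 1) := by positivity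
  have h4 : N1 + (k * (1 + 2 * n / E) + N1 * K) + N2 + (k * (1 + 2 * n / E) + N2 * (n / L')) +
      N2 * (1 + K + K * (n / L')) = (N1 * (1 + K) + N2 * (2 + K)) + 2 * k +
      2 * (k * (2 * n / E)) + N2 * (1 + K) * (n / L') := by ring
  rw [h4]
  linarith

theorem NumHyp.final (h : NumHyp n k E K L L' N1 N2) :
    (k * ((k * (1 + 2 * n / E) + N1 * K) + ((k * (1 + 2 * n / E) + N2 * (n / L')) +
      N2 * K))) / (n / 2) +
      2 * ((k * (1 + 2 * n / E)) * (k * (2 * n))) / ((n / 2) * (n / 2)) ≤ 1 / 16 := by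
  obtain ⟨b1, b2, b3, b4⟩ := h.bounds
  have b5 := h.nE
  obtain ⟨hE1, hL0, hL'0, hn0, hk2, hk1⟩ := h.basic
  obtain ⟨hk, hE, hK, hL, hN1, hN2, hL', hn⟩ := h
  have hE0 : 0 < E := by linarith
  have hx : 0 < n / L' := by positivity
  have hy : 0 < n / E := by positivity
  have hp : 0 ≤ (K + 2) * (N1 + N2 + 1) := by positivity
  have q1 : k ^ 2 * (n / E) ≤ n / 4000 := by
    have e1 : k ^ 2 * (n / E) = (k ^ 2 * n) / E := by ring
    rw [e1, div_le_iff₀ hE0]
    have e2 : n / 4000 * (4000 * k ^ 2) ≤ n / 4000 * E :=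
      mul_le_mul_of_nonneg_left hk2 (by positivity)
    linarith
  have q2 : k * (n / E) ≤ n / 4000 := by
    have e1 : k * (n / E) = (k * n) / E := by ring
    rw [e1, div_le_iff₀ hE0]
    have e2 : n / 4000 * (4000 * k) ≤ n / 4000 * E :=
      mul_le_mul_of_nonneg_left hk1 (by positivity)
    linarith
  have q3 : k ^ 2 ≤ n / 4000000 := by
    have e1 : 1000 * (E * 1) ≤ n := by
      refine le_trans ?_ hn
      have : E * 1 ≤ E * ((K + 2) * (N1 + N2 + 1) + 2 * L + 2 * k) := by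
        apply mul_le_mul_of_nonneg_left _ hE0.le
        nlinarith
      linarith
    linarith
  have t1 : (k * ((k * (1 + 2 * n / E) + N1 * K) + ((k * (1 + 2 * n / E) + N2 * (n / L')) +
      N2 * K))) / (n / 2) ≤ 1 / 100 := by
    rw [div_le_iff₀ (by positivity)]
    have e1 : k * ((k * (1 + 2 * n / E) + N1 * K) + ((k * (1 + 2 * n / E) + N2 * (n / L')) +
      N2 * K)) = 2 * k ^ 2 + 4 * (k ^ 2 * (n / E)) + k * ((N1 + N2) * K) +
        k * (N2 * (n / L')) := by ring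
    rw [e1]
    have e2 : (N1 + N2) * K ≤ (1 / 1000) * (n / E) := by
      have : (N1 + N2) * K ≤ (K + 2) * (N1 + N2 + 1) := by nlinarith
      linarith
    have e3 : N2 * (n / L') ≤ (1 / 1000) * (n / E) := by
      have : N2 * (n / L') ≤ ((K + 2) * (N1 + N2 + 1)) * (n / L') := by
        apply mul_le_mul_of_nonneg_right _ hx.le
        nlinarith
      linarith
    have e4 : k * ((N1 + N2) * K) ≤ k * ((1 / 1000) * (n / E)) :=
      mul_le_mul_of_nonneg_left e2 hk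
    have e5 : k * (N2 * (n / L')) ≤ k * ((1 / 1000) * (n / E)) :=
      mul_le_mul_of_nonneg_left e3 hk
    have e6 : k * ((1 / 1000) * (n / E)) = (1 / 1000) * (k * (n / E)) := by ring
    rw [e6] at e4 e5
    linarith
  have t2 : 2 * ((k * (1 + 2 * n / E)) * (k * (2 * n))) / ((n / 2) * (n / 2)) ≤ 1 / 50 := by
    rw [div_le_iff₀ (by positivity)]
    have e1 : 2 * ((k * (1 + 2 * n / E)) * (k * (2 * n))) =
        (4 * n) * (k ^ 2 + 2 * (k ^ 2 * (n / E))) := by ring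
    rw [e1]
    have e2 : (4 * n) * (k ^ 2 + 2 * (k ^ 2 * (n / E))) ≤
        (4 * n) * (n / 4000000 + 2 * (n / 4000)) :=
      mul_le_mul_of_nonneg_left (by linarith) (by positivity)
    have e3 : (4 * n) * (n / 4000000 + 2 * (n / 4000)) ≤ 1 / 50 * (n / 2 * (n / 2)) := by
      have : 0 < n * n := by positivity
      nlinarith
    linarith
  linarith

end Pool.Agent.Helper852.K
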