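import Pool.Agent.Helper852.K.Split
import Pool.Agent.Helper852.K.Comp

set_option autoImplicit false

/-!
Structural data of a single graph.
-/

namespace Pool.Agent.Helper852.K

open Finset Classical Pool.Agent.Helper852.Cnt

variable {n : ℕ}

/-- Structural data of a single graph in a family of `k` graphs. -/
structure One (G0 : SimpleGraph (Fin n)) (k : ℕ) (j : Fin k) (K NB : ℕ) (s N1 N2 d0 : ℝ) where
  S : Prop
  b : Fin n
  B : Finset (Fin n)
  B1 : Finset (Fin n)
  cl : Bool → Finset (Fin n)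
  c : Fin k → Fin n
  dm : ℝ
  cm : ℝ
  hdm : 0 ≤ dm
  hSB : S → B = {b}
  hNB : B.card ≤ NB
  hcd : ∀ l, l ≠ j → dg G0 (c l) ≤ 1
  hcc : ∀ l l', l ≠ j → l' ≠ j → l ≠ l' → c l ≠ c l' ∧ ¬ G0.Adj (c l) (c l') ∧
    ∀ v, G0.Adj (c l) v → ¬ G0.Adj (c l') v
  hcb : ∀ l, l ≠ j → S → ¬ G0.Adj (c l) b
  hcB : ∀ l, l ≠ j → c l ∉ B
  clB : ∀ a z, z ∈ cl a → z ∉ B
  cla : ∀ a z v, z ∈ cl a → v ∈ B → G0.Adj z v → (v ∈ B1 ↔ a = true)
  clS : ∀ z q, S → z ∈ cl true → G0.Adj z q → q = b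
  clK : ∀ a z, z ∈ cl a → dg G0 z ≤ K
  cls : ∀ a z q, z ∈ cl a → q ∉ B → G0.Adj z q → (dg G0 q : ℝ) ≤ s
  hdeg : ∀ v, v ∉ B → (dg G0 v : ℝ) ≤ dm
  hcm : ∀ a, (S → a = true) → cm ≤ ((cl a).card : ℝ)
  hn1 : NB + 2 * k + k * dm + N1 * (1 + K + K * s) < cm
  hn2 : N1 + (k * dm + N1 * K) + N2 + (k * dm + N2 * s) + N2 * (1 + K + K * s) < cm
  hd0 : dm ≤ d0

theorem leaves_data (G0 : SimpleGraph (Fin n)) (k : ℕ) (j : Fin k)
    (he : G0.edgeFinset.card + k ≤ n) (b : Fin n) :
    ∃ c : Fin k → Fin n, (∀ l, l ≠ j → dg G0 (c l) ≤ 1) ∧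
      (∀ l, l ≠ j → c l ≠ b ∧ ¬ G0.Adj (c l) b) ∧
      ∀ l l', l ≠ j → l' ≠ j → l ≠ l' → c l ≠ c l' ∧ ¬ G0.Adj (c l) (c l') ∧
        ∀ v, G0.Adj (c l) v → ¬ G0.Adj (c l') v := by
  have hcard : Fintype.card {l : Fin k // l ≠ j} + 1 ≤ k := by
    have h := Fintype.card_subtype_compl (fun l : Fin k => l = j)
    have h2 : Fintype.card {l : Fin k // l = j} = 1 := Fintype.card_subtype_eq j
    rw [h2, Fintype.card_fin] at h
    have h3 : Fintype.card {l : Fin k // l ≠ j} = k - 1 := h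
    have := j.2
    omega
  obtain ⟨c', h1, h2, h3⟩ := exists_leaves G0 k he {l : Fin k // l ≠ j} hcard b
  refine ⟨fun l => if h : l ≠ j then c' ⟨l, h⟩ else b, ?_, ?_, ?_⟩
  · intro l hl
    simp only [dif_pos hl]
    exact h1 _
  · intro l hl
    simp only [dif_pos hl]
    refine ⟨?_, ?_⟩
    · intro h
      apply h2 ⟨l, hl⟩
      rw [h]
    · intro h
      exact h2 ⟨l, hl⟩ h.reachable
  · intro l l' hl hl' hll
    simp only [dif_pos hl, dif_pos hl']
    have h4 := h3 ⟨l, hl⟩ ⟨l', hl'⟩ (fun h => hll (congrArg Subtype.val h))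
    refine ⟨?_, ?_, ?_⟩
    · intro h
      apply h4
      rw [h]
    · intro h
      exact h4 h.reachable
    · intro v hv hv'
      exact h4 (hv.reachable.trans hv'.symm.reachable)

theorem card_high2 (G0 : SimpleGraph (Fin n)) (he : G0.edgeFinset.card ≤ n) (K : ℕ)
    (hK : 0 < K) : ((univ.filter (fun t => K < dg G0 t)).card : ℝ) ≤ 2 * n / K := by
  have h1 : (univ.filter (fun t => K < dg G0 t)).card * K ≤ 2 * n := by
    calc (univ.filter (fun t => K < dg G0 t)).card * K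
        = ∑ _t ∈ univ.filter (fun t => K < dg G0 t), K := by rw [Finset.sum_const, smul_eq_mul]
      _ ≤ ∑ t ∈ univ.filter (fun t => K < dg G0 t), dg G0 t :=
          Finset.sum_le_sum (fun t ht => (Finset.mem_filter.mp ht).2.le)
      _ ≤ ∑ t, dg G0 t := Finset.sum_le_sum_of_subset (Finset.filter_subset _ _)
      _ = 2 * G0.edgeFinset.card := sum_dg G0
      _ ≤ 2 * n := Nat.mul_le_mul_left _ he
  have hKr : (0 : ℝ) < K := by exact_mod_cast hK
  rw [le_div_iff₀ hKr]
  exact_mod_cast h1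

/-- High-degree vertices. -/
noncomputable def Hi (G0 : SimpleGraph (Fin n)) (L : ℕ) : Finset (Fin n) :=
  univ.filter (fun v => n ≤ L * dg G0 v)

/-- Medium-degree vertices. -/
noncomputable def Med (G0 : SimpleGraph (Fin n)) (L L' : ℕ) : Finset (Fin n) :=
  univ.filter (fun v => n ≤ L' * dg G0 v ∧ ¬ n ≤ L * dg G0 v)

theorem card_Hi (G0 : SimpleGraph (Fin n)) (he : G0.edgeFinset.card ≤ n) (hn : 0 < n) (L : ℕ) :
    (Hi G0 L).card ≤ 2 * L := by
  have h1 : (Hi G0 L).card * n ≤ (2 * L) * n := by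
    calc (Hi G0 L).card * n = ∑ _v ∈ Hi G0 L, n := by rw [Finset.sum_const, smul_eq_mul]
      _ ≤ ∑ v ∈ Hi G0 L, L * dg G0 v :=
          Finset.sum_le_sum (fun v hv => (Finset.mem_filter.mp hv).2)
      _ = L * ∑ v ∈ Hi G0 L, dg G0 v := by rw [Finset.mul_sum]
      _ ≤ L * ∑ v, dg G0 v :=
          Nat.mul_le_mul_left _ (Finset.sum_le_sum_of_subset (Finset.subset_univ _))
      _ = L * (2 * G0.edgeFinset.card) := by rw [sum_dg]
      _ ≤ L * (2 * n) := Nat.mul_le_mul_left _ (Nat.mul_le_mul_left _ he)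
      _ = (2 * L) * n := by ring
  exact Nat.le_of_mul_le_mul_right h1 hn

/-- Class of generic vertices. -/
noncomputable def Cls (G0 : SimpleGraph (Fin n)) (L L' K : ℕ) (B1 : Finset (Fin n))
    (a : Bool) : Finset (Fin n) :=
  univ.filter (fun z => z ∉ Hi G0 L ∧ dg G0 z ≤ K ∧
    (∀ v ∈ Hi G0 L, G0.Adj z v → (v ∈ B1 ↔ a = true)) ∧ ∀ q ∈ Med G0 L L', ¬ G0.Adj z q)

theorem card_nbr_sum (G0 : SimpleGraph (Fin n)) (X : Finset (Fin n)) :
    ((X.biUnion (fun v => univ.filter (fun u => G0.Adj v u))).card : ℝ) ≤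
      ∑ v ∈ X, (dg G0 v : ℝ) := by
  have h : (X.biUnion (fun v => univ.filter (fun u => G0.Adj v u))).card ≤
      ∑ v ∈ X, dg G0 v := Finset.card_biUnion_le
  exact_mod_cast h

theorem card_Cls (G0 : SimpleGraph (Fin n)) (L L' K : ℕ) (hK : 0 < K)
    (he : G0.edgeFinset.card ≤ n) (hn : 0 < n) (B1 : Finset (Fin n)) (hB1 : B1 ⊆ Hi G0 L)
    (x y : ℝ) (h1 : ∑ v ∈ B1, (dg G0 v : ℝ) ≤ x)
    (h2 : ∑ v ∈ Hi G0 L \ B1, (dg G0 v : ℝ) ≤ x)
    (h3 : ∑ v ∈ Med G0 L L', (dg G0 v : ℝ) ≤ y) (a : Bool) :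
    (n : ℝ) - 2 * L - 2 * n / K - x - y ≤ ((Cls G0 L L' K B1 a).card : ℝ) := by
  set X : Finset (Fin n) := if a = true then Hi G0 L \ B1 else B1 with hX
  have hXs : ∑ v ∈ X, (dg G0 v : ℝ) ≤ x := by
    rw [hX]
    split_ifs
    · exact h2
    · exact h1
  have hcov : (univ : Finset (Fin n)) ⊆ (((Cls G0 L L' K B1 a ∪ Hi G0 L) ∪
      univ.filter (fun t => K < dg G0 t)) ∪
      X.biUnion (fun v => univ.filter (fun u => G0.Adj v u))) ∪
      (Med G0 L L').biUnion (fun v => univ.filter (fun u => G0.Adj v u)) := by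
    intro z _
    by_contra hcon
    simp only [Finset.mem_union, not_or] at hcon
    obtain ⟨⟨⟨⟨c1, c2⟩, c3⟩, c4⟩, c5⟩ := hcon
    apply c1
    refine Finset.mem_filter.mpr ⟨Finset.mem_univ _, c2, ?_, ?_, ?_⟩
    · by_contra h
      exact c3 (Finset.mem_filter.mpr ⟨Finset.mem_univ _, by omega⟩)
    · intro v hv hadj
      have h4 : v ∉ X := by
        intro hvX
        exact c4 (Finset.mem_biUnion.mpr ⟨v, hvX, Finset.mem_filter.mpr
          ⟨Finset.mem_univ _, hadj.symm⟩⟩)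
      rw [hX] at h4
      by_cases ha : a = true
      · rw [if_pos ha] at h4
        refine ⟨fun _ => ha, fun _ => ?_⟩
        by_contra hvB
        exact h4 (Finset.mem_sdiff.mpr ⟨hv, hvB⟩)
      · rw [if_neg ha] at h4
        exact ⟨fun h => absurd h h4, fun h => absurd h ha⟩
    · intro q hq hadj
      exact c5 (Finset.mem_biUnion.mpr ⟨q, hq, Finset.mem_filter.mpr
        ⟨Finset.mem_univ _, hadj.symm⟩⟩)
  have e0 := Finset.card_le_card hcov
  have e1 := Finset.card_union_le ((((Cls G0 L L' K B1 a ∪ Hi G0 L) ∪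
      univ.filter (fun t => K < dg G0 t)) ∪
      X.biUnion (fun v => univ.filter (fun u => G0.Adj v u))))
      ((Med G0 L L').biUnion (fun v => univ.filter (fun u => G0.Adj v u)))
  have e2 := Finset.card_union_le (((Cls G0 L L' K B1 a ∪ Hi G0 L) ∪
      univ.filter (fun t => K < dg G0 t)))
      (X.biUnion (fun v => univ.filter (fun u => G0.Adj v u)))
  have e3 := Finset.card_union_le (Cls G0 L L' K B1 a ∪ Hi G0 L)
      (univ.filter (fun t => K < dg G0 t))
  have e4 := Finset.card_union_le (Cls G0 L L' K B1 a) (Hi G0 L)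
  have e5 := card_Hi G0 he hn L
  rw [Finset.card_univ, Fintype.card_fin] at e0
  have e6 : n ≤ (Cls G0 L L' K B1 a).card + 2 * L + (univ.filter (fun t => K < dg G0 t)).card +
      (X.biUnion (fun v => univ.filter (fun u => G0.Adj v u))).card +
      ((Med G0 L L').biUnion (fun v => univ.filter (fun u => G0.Adj v u))).card := by omega
  have e7 : (n : ℝ) ≤ (Cls G0 L L' K B1 a).card + 2 * L +
      (univ.filter (fun t => K < dg G0 t)).card +
      (X.biUnion (fun v => univ.filter (fun u => G0.Adj v u))).card +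
      ((Med G0 L L').biUnion (fun v => univ.filter (fun u => G0.Adj v u))).card := by
    exact_mod_cast e6
  have e8 := card_high2 G0 he K hK
  have e9 := card_nbr_sum G0 X
  have e10 := card_nbr_sum G0 (Med G0 L L')
  linarith

/-- Data for graphs without a vertex of almost full degree. -/
theorem one_nonstar (G0 : SimpleGraph (Fin n)) (k : ℕ) (j : Fin k) (E L L' K : ℕ)
    (N1 N2 d0 : ℝ) (hE : 1 ≤ E) (hL : 1 ≤ L) (hL' : 1 ≤ L') (hK : K = 24 * E)
    (he : G0.edgeFinset.card + k ≤ n)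
    (hmax : ∀ v, (dg G0 v : ℝ) ≤ (1 - 1 / (E : ℝ)) * n)
    (hmed : ∑ v ∈ Med G0 L L', (dg G0 v : ℝ) ≤ n / (12 * E))
    (hnL : L < n) (hn3 : 3 * (E : ℝ) * (2 * L) ^ 2 ≤ n) (hn48 : 48 * (E : ℝ) * L ≤ n)
    (hn1 : ((2 * L : ℕ) : ℝ) + 2 * k + k * ((n : ℝ) / L) +
      N1 * (1 + K + K * ((n : ℝ) / L')) < n / (8 * E))
    (hn2 : N1 + (k * ((n : ℝ) / L) + N1 * K) + N2 + (k * ((n : ℝ) / L) + N2 * ((n : ℝ) / L')) +
      N2 * (1 + K + K * ((n : ℝ) / L')) < n / (8 * E))
    (hd0 : (n : ℝ) / L ≤ d0) :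
    Nonempty (One G0 k j K (2 * L) ((n : ℝ) / L') N1 N2 d0) := by
  have hn0 : 0 < n := by omega
  have hnr : (0 : ℝ) < n := by exact_mod_cast hn0
  have hEr : (1 : ℝ) ≤ E := by exact_mod_cast hE
  have hLr : (1 : ℝ) ≤ L := by exact_mod_cast hL
  have hL'r : (1 : ℝ) ≤ L' := by exact_mod_cast hL'
  have hcH := card_Hi G0 (by omega) hn0 L
  obtain ⟨B1, hB1, hs1, hs2⟩ := split G0 (Hi G0 L) (E : ℝ) hEr (by omega) hmax (by
    have h1 : ((Hi G0 L).card : ℝ) ≤ 2 * L := by exact_mod_cast hcH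
    have h2 : ((Hi G0 L).card : ℝ) ^ 2 ≤ (2 * (L : ℝ)) ^ 2 :=
      pow_le_pow_left₀ (Nat.cast_nonneg _) h1 2
    have h3 : 3 * (E : ℝ) * ((Hi G0 L).card : ℝ) ^ 2 ≤ 3 * (E : ℝ) * (2 * (L : ℝ)) ^ 2 :=
      mul_le_mul_of_nonneg_left h2 (by positivity)
    linarith)
  obtain ⟨c, hc1, hc2, hc3⟩ := leaves_data G0 k j he ⟨0, hn0⟩
  have hKpos : 0 < K := by omega
  refine ⟨{
    S := False
    b := ⟨0, hn0⟩
    B := Hi G0 L
    B1 := B1
    cl := Cls G0 L L' K B1
    c := c
    dm := (n : ℝ) / L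
    cm := (n : ℝ) / (8 * E)
    hdm := by positivity
    hSB := fun h => absurd h not_false
    hNB := hcH
    hcd := hc1
    hcc := hc3
    hcb := fun l _ h => absurd h not_false
    hcB := ?_
    clB := ?_
    cla := ?_
    clS := fun z q h => absurd h not_false
    clK := ?_
    cls := ?_
    hdeg := ?_
    hcm := ?_
    hn1 := hn1
    hn2 := hn2
    hd0 := hd0 }⟩
  · intro l hl h
    have h1 := (Finset.mem_filter.mp h).2
    have h2 := hc1 l hl
    have h3 : L * dg G0 (c l) ≤ L * 1 := Nat.mul_le_mul_left _ h2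
    omega
  · intro a z hz
    exact (Finset.mem_filter.mp hz).2.1
  · intro a z v hz hv hadj
    exact (Finset.mem_filter.mp hz).2.2.2.1 v hv hadj
  · intro a z hz
    exact (Finset.mem_filter.mp hz).2.2.1
  · intro a z q hz hq hadj
    have h1 : q ∉ Med G0 L L' := fun h => (Finset.mem_filter.mp hz).2.2.2.2 q h hadj
    have h2 : ¬ n ≤ L * dg G0 q := fun h => hq (Finset.mem_filter.mpr ⟨Finset.mem_univ _, h⟩)
    have h3 : L' * dg G0 q < n := by
      by_contra h
      exact h1 (Finset.mem_filter.mpr ⟨Finset.mem_univ _, by omega, h2⟩)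
    rw [le_div_iff₀ (by linarith), mul_comm]
    exact_mod_cast h3.le
  · intro v hv
    have h2 : ¬ n ≤ L * dg G0 v := fun h => hv (Finset.mem_filter.mpr ⟨Finset.mem_univ _, h⟩)
    have h3 : L * dg G0 v < n := by omega
    rw [le_div_iff₀ (by linarith), mul_comm]
    exact_mod_cast h3.le
  · intro a _
    refine le_trans ?_ (card_Cls G0 L L' K hKpos (by omega) hn0 B1 hB1 _ _ hs1 hs2 hmed a)
    have h1 : 2 * (n : ℝ) / K = n * (1 / (12 * E)) := by
      rw [hK]
      push_cast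
      field_simp
      ring
    have h2 : (1 : ℝ) / (3 * E) = 8 * (1 / (24 * E)) := by field_simp; norm_num
    have h3 : (1 : ℝ) / (12 * E) = 2 * (1 / (24 * E)) := by field_simp; norm_num
    have h4 : (n : ℝ) / (12 * E) = n * (1 / (12 * E)) := by ring
    have h5 : (n : ℝ) / (8 * E) = 3 * (n * (1 / (24 * E))) := by field_simp; norm_num
    have h6 : 2 * (L : ℝ) ≤ n * (1 / (24 * E)) := by
      rw [mul_one_div, le_div_iff₀ (by positivity)]
      linarith
    rw [h1, h4, h5, h2, h3]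
    nlinarith

/-- The degree sum away from a vertex. -/
theorem star_sum (G0 : SimpleGraph (Fin n)) (b : Fin n) :
    ∑ z ∈ univ.erase b, dg G0 z + dg G0 b = 2 * G0.edgeFinset.card := by
  rw [← sum_dg, Finset.sum_erase_add _ _ (Finset.mem_univ b)]

theorem star_ind (G0 : SimpleGraph (Fin n)) (b : Fin n) :
    ∑ z ∈ univ.erase b, (if G0.Adj b z then 1 else 0) = dg G0 b := by
  unfold dg
  rw [Finset.card_filter, ← Finset.sum_erase_add _ _ (Finset.mem_univ b),
    if_neg (G0.irrefl), add_zero]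

theorem star_excess (G0 : SimpleGraph (Fin n)) (b : Fin n) (T : Finset (Fin n))
    (hT : T ⊆ univ.erase b) :
    ∑ z ∈ T, (dg G0 z - (if G0.Adj b z then 1 else 0)) + 2 * dg G0 b ≤
      2 * G0.edgeFinset.card := by
  have h1 : ∑ z ∈ T, (dg G0 z - (if G0.Adj b z then 1 else 0)) ≤
      ∑ z ∈ univ.erase b, (dg G0 z - (if G0.Adj b z then 1 else 0)) :=
    Finset.sum_le_sum_of_subset hT
  have h2 : ∑ z ∈ univ.erase b, (dg G0 z - (if G0.Adj b z then 1 else 0)) +
      ∑ z ∈ univ.erase b, (if G0.Adj b z then 1 else 0) = ∑ z ∈ univ.erase b, dg G0 z := by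
    rw [← Finset.sum_add_distrib]
    apply Finset.sum_congr rfl
    intro z _
    by_cases h : G0.Adj b z
    · rw [if_pos h]
      have : 0 < dg G0 z := by
        unfold dg
        rw [Finset.card_pos]
        exact ⟨b, Finset.mem_filter.mpr ⟨Finset.mem_univ _, h.symm⟩⟩
      omega
    · rw [if_neg h]
      omega
  rw [star_ind] at h2
  have h3 := star_sum G0 b
  omega

/-- Data for graphs with a vertex of almost full degree. -/
theorem one_star (G0 : SimpleGraph (Fin n)) (k : ℕ) (j : Fin k) (E K NB : ℕ)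
    (s N1 N2 d0 : ℝ) (hE : 6 ≤ E) (hK : 1 ≤ K) (hNB : 1 ≤ NB)
    (he : G0.edgeFinset.card + k ≤ n) (b : Fin n)
    (hb : (1 - 1 / (E : ℝ)) * n < (dg G0 b : ℝ))
    (hn1 : (NB : ℝ) + 2 * k + k * (1 + 2 * (n : ℝ) / E) +
      N1 * (1 + K + K * s) < n / 2)
    (hn2 : N1 + (k * (1 + 2 * (n : ℝ) / E) + N1 * K) + N2 +
      (k * (1 + 2 * (n : ℝ) / E) + N2 * s) + N2 * (1 + K + K * s) < n / 2)
    (hd0 : 1 + 2 * (n : ℝ) / E ≤ d0) :
    Nonempty (One G0 k j K NB s N1 N2 d0) := by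
  have hEr : (6 : ℝ) ≤ E := by exact_mod_cast hE
  obtain ⟨c, hc1, hc2, hc3⟩ := leaves_data G0 k j he b
  have hexc : 2 * (G0.edgeFinset.card : ℝ) - 2 * dg G0 b ≤ 2 * (n : ℝ) / E := by
    have h1 : (G0.edgeFinset.card : ℝ) ≤ n := by
      have : G0.edgeFinset.card ≤ n := by omega
      exact_mod_cast this
    have h2 : 2 * (n : ℝ) / E = 2 * (n - (1 - 1 / (E : ℝ)) * n) := by
      field_simp
      ring
    rw [h2]
    linarith
  have hdeg : ∀ v, v ≠ b → (dg G0 v : ℝ) ≤ 1 + 2 * (n : ℝ) / E := by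
    intro v hv
    have h1 := star_excess G0 b {v} (by
      rw [Finset.singleton_subset_iff]
      exact Finset.mem_erase.mpr ⟨hv, Finset.mem_univ _⟩)
    rw [Finset.sum_singleton] at h1
    have h2 : dg G0 v + 2 * dg G0 b ≤ 1 + 2 * G0.edgeFinset.card := by
      split_ifs at h1 <;> omega
    have h3 : (dg G0 v : ℝ) + 2 * dg G0 b ≤ 1 + 2 * G0.edgeFinset.card := by exact_mod_cast h2
    linarith
  set C : Finset (Fin n) := univ.filter (fun z => G0.Adj b z ∧ dg G0 z ≤ 1) with hC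
  have hCc : (n : ℝ) / 2 ≤ (C.card : ℝ) := by
    set T : Finset (Fin n) := univ.filter (fun z => G0.Adj b z ∧ ¬ dg G0 z ≤ 1) with hT
    have h1 : dg G0 b = C.card + T.card := by
      have h2 := Finset.card_filter_add_card_filter_not
        (s := univ.filter (fun z => G0.Adj b z)) (fun z => dg G0 z ≤ 1)
      rw [Finset.filter_filter, Finset.filter_filter] at h2
      unfold dg at h2 ⊢
      rw [hC, hT]
      unfold dg
      exact h2.symm
    have h2 : T.card ≤ ∑ z ∈ T, (dg G0 z - (if G0.Adj b z then 1 else 0)) := by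
      rw [Finset.card_eq_sum_ones]
      apply Finset.sum_le_sum
      intro z hz
      have h3 := (Finset.mem_filter.mp hz).2
      rw [if_pos h3.1]
      omega
    have h3 := star_excess G0 b T (by
      intro z hz
      refine Finset.mem_erase.mpr ⟨?_, Finset.mem_univ _⟩
      intro h
      have h4 := (Finset.mem_filter.mp hz).2.1
      rw [h] at h4
      exact G0.irrefl h4)
    have h4 : T.card + 2 * dg G0 b ≤ 2 * G0.edgeFinset.card := by omega
    have h5 : (T.card : ℝ) + 2 * dg G0 b ≤ 2 * G0.edgeFinset.card := by exact_mod_cast h4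
    have h6 : (dg G0 b : ℝ) = C.card + T.card := by exact_mod_cast h1
    have h7 : (n : ℝ) * (1 / E) ≤ n * (1 / 6) := by
      apply mul_le_mul_of_nonneg_left _ (Nat.cast_nonneg _)
      exact one_div_le_one_div_of_le (by norm_num) hEr
    have h8 : 2 * (n : ℝ) / E = 2 * (n * (1 / E)) := by ring
    rw [h8] at hexc
    have h9 : (1 - 1 / (E : ℝ)) * n = n - n * (1 / E) := by ring
    rw [h9] at hb
    linarith
  refine ⟨{
    S := True
    b := b
    B := {b}
    B1 := {b}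
    cl := fun a => if a = true then C else ∅
    c := c
    dm := 1 + 2 * (n : ℝ) / E
    cm := (n : ℝ) / 2
    hdm := by positivity
    hSB := fun _ => rfl
    hNB := by rw [Finset.card_singleton]; exact hNB
    hcd := hc1
    hcc := hc3
    hcb := fun l hl _ => (hc2 l hl).2
    hcB := fun l hl => by
      rw [Finset.mem_singleton]
      exact (hc2 l hl).1
    clB := ?_
    cla := ?_
    clS := ?_
    clK := ?_
    cls := ?_
    hdeg := ?_
    hcm := ?_
    hn1 := hn1
    hn2 := hn2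
    hd0 := hd0 }⟩
  · intro a z hz
    cases a
    · simp at hz
    · simp only [if_true] at hz
      rw [Finset.mem_singleton]
      intro h
      have h4 := (Finset.mem_filter.mp hz).2.1
      rw [h] at h4
      exact G0.irrefl h4
  · intro a z v hz hv hadj
    cases a
    · simp at hz
    · exact ⟨fun _ => rfl, fun _ => hv⟩
  · intro z q _ hz hadj
    simp only [if_true] at hz
    have h4 := (Finset.mem_filter.mp hz).2
    have h5 := h4.2
    unfold dg at h5
    rw [Finset.card_le_one] at h5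
    exact h5 q (Finset.mem_filter.mpr ⟨Finset.mem_univ _, hadj⟩) b
      (Finset.mem_filter.mpr ⟨Finset.mem_univ _, h4.1.symm⟩)
  · intro a z hz
    cases a
    · simp at hz
    · simp only [if_true] at hz
      exact (Finset.mem_filter.mp hz).2.2.trans hK
  · intro a z q hz hq hadj
    cases a
    · simp at hz
    · exfalso
      simp only [if_true] at hz
      have h4 := (Finset.mem_filter.mp hz).2
      have h5 := h4.2
      unfold dg at h5
      rw [Finset.card_le_one] at h5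
      apply hq
      rw [Finset.mem_singleton]
      exact h5 q (Finset.mem_filter.mpr ⟨Finset.mem_univ _, hadj⟩) b
        (Finset.mem_filter.mpr ⟨Finset.mem_univ _, h4.1.symm⟩)
  · intro v hv
    rw [Finset.mem_singleton] at hv
    exact hdeg v hv
  · intro a ha
    have h := ha trivial
    subst h
    simp only [if_true]
    exact hCc

end Pool.Agent.Helper852.K
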