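import Pool.Agent.Helper852.K.GenSel

set_option autoImplicit false

/-!
The first round of the core construction.
-/

namespace Pool.Agent.Helper852.K

open Finset Classical Pool.Agent.Helper852.Cnt

variable {n k : ℕ}

/-- Structural data for a family of graphs. -/
structure Fam (n k : ℕ) (G : Fin k → SimpleGraph (Fin n)) where
  S : Fin k → Prop
  b : Fin k → Fin n
  B : Fin k → Finset (Fin n)
  B1 : Fin k → Finset (Fin n)
  cl : Fin k → Bool → Finset (Fin n)
  c : Fin k → Fin k → Fin n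
  K : ℕ
  NB : ℕ
  s : ℝ
  dm : Fin k → ℝ
  hK : 1 ≤ K
  hs : 0 ≤ s
  hdm : ∀ j, 0 ≤ dm j
  hSB : ∀ j, S j → B j = {b j}
  hNB : ∀ j, (B j).card ≤ NB
  hcd : ∀ j l, l ≠ j → dg (G j) (c j l) ≤ 1
  hcc : ∀ j l l', l ≠ j → l' ≠ j → l ≠ l' → c j l ≠ c j l' ∧ ¬ (G j).Adj (c j l) (c j l') ∧
    ∀ v, (G j).Adj (c j l) v → ¬ (G j).Adj (c j l') v
  hcb : ∀ j l, l ≠ j → S j → ¬ (G j).Adj (c j l) (b j)
  hcB : ∀ j l, l ≠ j → c j l ∉ B j
  clB : ∀ j a z, z ∈ cl j a → z ∉ B j
  cla : ∀ j a z v, z ∈ cl j a → v ∈ B j → (G j).Adj z v → (v ∈ B1 j ↔ a = true)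
  clS : ∀ j z q, S j → z ∈ cl j true → (G j).Adj z q → q = b j
  clK : ∀ j a z, z ∈ cl j a → dg (G j) z ≤ K
  cls : ∀ j a z q, z ∈ cl j a → q ∉ B j → (G j).Adj z q → (dg (G j) q : ℝ) ≤ s
  hdeg : ∀ j v, v ∉ B j → (dg (G j) v : ℝ) ≤ dm j

variable {G : Fin k → SimpleGraph (Fin n)}

theorem unique_nbr {G0 : SimpleGraph (Fin n)} {c v v' : Fin n} (h : dg G0 c ≤ 1)
    (h1 : G0.Adj c v) (h2 : G0.Adj c v') : v = v' := by
  unfold dg at h
  rw [Finset.card_le_one] at h
  exact h v (Finset.mem_filter.mpr ⟨Finset.mem_univ _, h1⟩) v'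
    (Finset.mem_filter.mpr ⟨Finset.mem_univ _, h2⟩)

namespace Fam

variable (F : Fam n k G)

/-- Vertices that are main vertices of some tuple. -/
noncomputable def M (l : Fin k) : Finset (Fin n) :=
  univ.filter (fun v => v ∈ F.B l ∨
    ∃ i, i ≠ l ∧ F.S i ∧ (¬ F.S l ∨ i < l) ∧ (G l).Adj (F.c l i) v)

/-- Indices of the first round. -/
abbrev I1 : Type := {p : Fin k × Fin n // p.2 ∈ F.M p.1}

/-- The special coordinates. -/
def special (p : F.I1) (j : Fin k) : Prop :=
  (F.S p.1.1 ∧ p.1.2 = F.b p.1.1 ∧ (¬ F.S j ∨ p.1.1 < j)) ∨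
  (F.S j ∧ (¬ F.S p.1.1 ∨ j < p.1.1) ∧ (G p.1.1).Adj (F.c p.1.1 j) p.1.2)

/-- The class used for generic coordinates. -/
noncomputable def rule (j : Fin k) (p : F.I1) : Bool :=
  if F.S j then true else
    (if j < p.1.1 then decide (p.1.2 ∈ F.B1 p.1.1) else !decide (p.1.2 ∈ F.B1 p.1.1))

/-- Neighbours of the special vertices. -/
noncomputable def Gs (j : Fin k) : Finset (Fin n) :=
  (univ.filter (fun l => l ≠ j)).biUnion (fun l => univ.filter (fun v => (G j).Adj (F.c j l) v))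

/-- Vertices avoided by the generic choices. -/
noncomputable def Av (j : Fin k) : Finset (Fin n) :=
  ((F.B j ∪ (univ.filter (fun l => l ≠ j)).image (F.c j)) ∪ F.Gs j) ∪
    ((F.Gs j) \ (F.B j)).biUnion (fun g => univ.filter (fun u => (G j).Adj g u))

theorem mem_Gs {j : Fin k} {v : Fin n} : v ∈ F.Gs j ↔ ∃ l, l ≠ j ∧ (G j).Adj (F.c j l) v := by
  simp [Gs]

theorem card_Gs (j : Fin k) : (F.Gs j).card ≤ k := by
  calc (F.Gs j).card ≤ ∑ l ∈ univ.filter (fun l => l ≠ j), dg (G j) (F.c j l) :=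
        Finset.card_biUnion_le
    _ ≤ ∑ _l ∈ univ.filter (fun l => l ≠ j), 1 :=
        Finset.sum_le_sum (fun l hl => F.hcd j l (Finset.mem_filter.mp hl).2)
    _ ≤ ∑ _l : Fin k, 1 := Finset.sum_le_sum_of_subset (Finset.filter_subset _ _)
    _ = k := by simp

theorem card_Av (j : Fin k) : ((F.Av j).card : ℝ) ≤ F.NB + 2 * k + k * F.dm j := by
  have h1 := Finset.card_union_le ((F.B j ∪ (univ.filter (fun l => l ≠ j)).image (F.c j)) ∪ F.Gs j)
    (((F.Gs j) \ (F.B j)).biUnion (fun g => univ.filter (fun u => (G j).Adj g u)))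
  have h2 := Finset.card_union_le (F.B j ∪ (univ.filter (fun l => l ≠ j)).image (F.c j)) (F.Gs j)
  have h3 := Finset.card_union_le (F.B j) ((univ.filter (fun l => l ≠ j)).image (F.c j))
  have h4 : ((univ.filter (fun l => l ≠ j)).image (F.c j)).card ≤ k := by
    refine Finset.card_image_le.trans ((Finset.card_filter_le _ _).trans ?_)
    rw [Finset.card_univ, Fintype.card_fin]
  have h5 := F.card_Gs j
  have h6 := F.hNB j
  have h7 : ((((F.Gs j) \ (F.B j)).biUnion
      (fun g => univ.filter (fun u => (G j).Adj g u))).card : ℝ) ≤ k * F.dm j := by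
    calc ((((F.Gs j) \ (F.B j)).biUnion
        (fun g => univ.filter (fun u => (G j).Adj g u))).card : ℝ)
        ≤ ∑ g ∈ (F.Gs j) \ (F.B j), (dg (G j) g : ℝ) := by
          have : (((F.Gs j) \ (F.B j)).biUnion
            (fun g => univ.filter (fun u => (G j).Adj g u))).card ≤
            ∑ g ∈ (F.Gs j) \ (F.B j), dg (G j) g := Finset.card_biUnion_le
          exact_mod_cast this
      _ ≤ ∑ _g ∈ (F.Gs j) \ (F.B j), F.dm j :=
          Finset.sum_le_sum (fun g hg => F.hdeg j g (Finset.mem_sdiff.mp hg).2)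
      _ = (((F.Gs j) \ (F.B j)).card : ℝ) * F.dm j := by rw [Finset.sum_const, nsmul_eq_mul]
      _ ≤ k * F.dm j := by
          apply mul_le_mul_of_nonneg_right _ (F.hdm j)
          exact_mod_cast (Finset.card_le_card Finset.sdiff_subset).trans h5
  have h8 : (F.Av j).card ≤ F.NB + 2 * k + (((F.Gs j) \ (F.B j)).biUnion
      (fun g => univ.filter (fun u => (G j).Adj g u))).card := by
    unfold Av
    omega
  have h9 : ((F.Av j).card : ℝ) ≤ F.NB + 2 * k + (((F.Gs j) \ (F.B j)).biUnion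
      (fun g => univ.filter (fun u => (G j).Adj g u))).card := by exact_mod_cast h8
  linarith

theorem card_M (l : Fin k) : (F.M l).card ≤ F.NB + k := by
  have h1 : F.M l ⊆ F.B l ∪ F.Gs l := by
    intro v hv
    rcases (Finset.mem_filter.mp hv).2 with h | ⟨i, hi, _, _, hadj⟩
    · exact Finset.mem_union_left _ h
    · exact Finset.mem_union_right _ (F.mem_Gs.mpr ⟨i, hi, hadj⟩)
  refine (Finset.card_le_card h1).trans ((Finset.card_union_le _ _).trans ?_)
  exact Nat.add_le_add (F.hNB l) (F.card_Gs l)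

theorem card_I1 : Fintype.card F.I1 ≤ k * (F.NB + k) := by
  have h1 : Fintype.card F.I1 =
      (univ.filter (fun p : Fin k × Fin n => p.2 ∈ F.M p.1)).card := Fintype.card_subtype _
  have h2 : (univ.filter (fun p : Fin k × Fin n => p.2 ∈ F.M p.1)) ⊆
      (univ : Finset (Fin k)).biUnion (fun l => (F.M l).image (fun v => (l, v))) := by
    rintro ⟨l, v⟩ hp
    exact Finset.mem_biUnion.mpr ⟨l, Finset.mem_univ _, Finset.mem_image.mpr
      ⟨v, (Finset.mem_filter.mp hp).2, rfl⟩⟩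
  rw [h1]
  calc (univ.filter (fun p : Fin k × Fin n => p.2 ∈ F.M p.1)).card
      ≤ ∑ l : Fin k, ((F.M l).image (fun v => (l, v))).card :=
        (Finset.card_le_card h2).trans Finset.card_biUnion_le
    _ ≤ ∑ _l : Fin k, (F.NB + k) :=
        Finset.sum_le_sum (fun l _ => Finset.card_image_le.trans (F.card_M l))
    _ = k * (F.NB + k) := by simp

/-- A first-round choice of generic vertices. -/
structure Ch1 where
  z : Fin k → F.I1 → Fin n
  hz1 : ∀ j p, z j p ∈ F.cl j (F.rule j p) ∧ z j p ∉ F.Av j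
  hz2 : ∀ j p p', p ≠ p' → z j p ≠ z j p' ∧ ¬ (G j).Adj (z j p) (z j p') ∧
    ∀ q, q ∉ F.B j → (G j).Adj (z j p) q → ¬ (G j).Adj (z j p') q

theorem exists_ch1 (cm : Fin k → ℝ)
    (hcm : ∀ j a, (F.S j → a = true) → cm j ≤ ((F.cl j a).card : ℝ))
    (hnum : ∀ j, F.NB + 2 * k + k * F.dm j +
      ((k * (F.NB + k) : ℕ) : ℝ) * (1 + F.K + F.K * F.s) < cm j) : Nonempty F.Ch1 := by
  have h : ∀ j, ∃ z : F.I1 → Fin n, (∀ p, z p ∈ F.cl j (F.rule j p) ∧ z p ∉ F.Av j) ∧
      ∀ p p', p ≠ p' → z p ≠ z p' ∧ ¬ (G j).Adj (z p) (z p') ∧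
        ∀ q, q ∉ F.B j → (G j).Adj (z p) q → ¬ (G j).Adj (z p') q := by
    intro j
    apply gen_sel (G j) (F.B j) (fun p : F.I1 => F.cl j (F.rule j p)) (F.Av j) F.K F.s F.hs
    · intro p z hz
      exact F.clK j _ z hz
    · intro p z hz q hq hadj
      exact F.cls j _ z q hz hq hadj
    · intro p
      have h1 := hcm j (F.rule j p) (by
        intro hS
        unfold rule
        rw [if_pos hS])
      have h2 := F.card_Av j
      have h3 : (Fintype.card F.I1 : ℝ) ≤ ((k * (F.NB + k) : ℕ) : ℝ) := by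
        exact_mod_cast F.card_I1
      have h4 : (Fintype.card F.I1 : ℝ) * (1 + F.K + F.K * F.s) ≤
          ((k * (F.NB + k) : ℕ) : ℝ) * (1 + F.K + F.K * F.s) := by
        apply mul_le_mul_of_nonneg_right h3
        have := F.hs
        positivity
      have h5 := hnum j
      linarith
  choose z hz1 hz2 using h
  exact ⟨⟨z, hz1, hz2⟩⟩

namespace Ch1

variable {F} (Z : F.Ch1)

/-- The tuples of the first round. -/
noncomputable def tau (p : F.I1) (j : Fin k) : Fin n :=
  if j = p.1.1 then p.1.2 else if F.special p j then F.c j p.1.1 else Z.z j p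

theorem tau_main {p : F.I1} {j : Fin k} (h : j = p.1.1) : Z.tau p j = p.1.2 := by
  unfold tau; rw [if_pos h]

theorem tau_special {p : F.I1} {j : Fin k} (h : j ≠ p.1.1) (hs : F.special p j) :
    Z.tau p j = F.c j p.1.1 := by
  unfold tau; rw [if_neg h, if_pos hs]

theorem tau_generic {p : F.I1} {j : Fin k} (h : j ≠ p.1.1) (hs : ¬ F.special p j) :
    Z.tau p j = Z.z j p := by
  unfold tau; rw [if_neg h, if_neg hs]

theorem mem_M_cases {l : Fin k} {v : Fin n} (hv : v ∈ F.M l) : v ∈ F.B l ∨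
    ∃ i, i ≠ l ∧ F.S i ∧ (¬ F.S l ∨ i < l) ∧ (G l).Adj (F.c l i) v :=
  (Finset.mem_filter.mp hv).2

/-- Avoidance properties of generic vertices. -/
theorem gen_notB (j : Fin k) (p : F.I1) : Z.z j p ∉ F.B j := F.clB j _ _ (Z.hz1 j p).1

theorem gen_ne_c (j : Fin k) (p : F.I1) (l : Fin k) (hl : l ≠ j) : Z.z j p ≠ F.c j l := by
  intro h
  apply (Z.hz1 j p).2
  unfold Av
  rw [h]
  exact Finset.mem_union_left _ (Finset.mem_union_left _ (Finset.mem_union_right _
    (Finset.mem_image_of_mem _ (Finset.mem_filter.mpr ⟨Finset.mem_univ _, hl⟩))))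

theorem gen_notGs (j : Fin k) (p : F.I1) : Z.z j p ∉ F.Gs j := by
  intro h
  apply (Z.hz1 j p).2
  unfold Av
  exact Finset.mem_union_left _ (Finset.mem_union_right _ h)

theorem gen_nadj_c (j : Fin k) (p : F.I1) (l : Fin k) (hl : l ≠ j) :
    ¬ (G j).Adj (Z.z j p) (F.c j l) := by
  intro h
  exact Z.gen_notGs j p (F.mem_Gs.mpr ⟨l, hl, h.symm⟩)

theorem gen_nadj_g (j : Fin k) (p : F.I1) (g : Fin n) (hg : g ∈ F.Gs j) (hgB : g ∉ F.B j) :
    ¬ (G j).Adj (Z.z j p) g := by
  intro h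
  apply (Z.hz1 j p).2
  unfold Av
  exact Finset.mem_union_right _ (Finset.mem_biUnion.mpr ⟨g, Finset.mem_sdiff.mpr ⟨hg, hgB⟩,
    Finset.mem_filter.mpr ⟨Finset.mem_univ _, h.symm⟩⟩)

theorem gen_ne_M (j : Fin k) (p : F.I1) (v : Fin n) (hv : v ∈ F.M j) : Z.z j p ≠ v := by
  intro h
  rcases mem_M_cases hv with h1 | ⟨i, hi, _, _, hadj⟩
  · rw [← h] at h1
    exact Z.gen_notB j p h1
  · rw [← h] at hadj
    exact Z.gen_notGs j p (F.mem_Gs.mpr ⟨i, hi, hadj⟩)

/-- A special vertex is not a main vertex. -/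
theorem c_ne_M (j l : Fin k) (hl : l ≠ j) (v : Fin n) (hv : v ∈ F.M j) : F.c j l ≠ v := by
  intro h
  rcases mem_M_cases hv with h1 | ⟨i, hi, _, _, hadj⟩
  · rw [← h] at h1
    exact F.hcB j l hl h1
  · rw [← h] at hadj
    by_cases hil : i = l
    · rw [hil] at hadj
      exact (G j).irrefl hadj
    · exact (F.hcc j i l hi hl hil).2.1 hadj

/-- Two special coordinates with the same special vertex. -/
theorem special_unique {p p' : F.I1} {j : Fin k} (hj : j ≠ p.1.1) (hp : p.1.1 = p'.1.1)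
    (h1 : F.special p j) (h2 : F.special p' j) : p = p' := by
  have hsnd : p.1.2 = p'.1.2 := by
    unfold special at h1 h2
    rw [← hp] at h2
    rcases h1 with ⟨a1, a2, a3⟩ | ⟨a1, a2, a3⟩
    · rcases h2 with ⟨b1, b2, b3⟩ | ⟨b1, b2, b3⟩
      · rw [a2, b2]
      · exfalso
        rcases a3 with h | h
        · exact h b1
        · rcases b2 with h' | h'
          · exact h' a1
          · exact lt_asymm h h'
    · rcases h2 with ⟨b1, b2, b3⟩ | ⟨b1, b2, b3⟩
      · exfalso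
        rcases b3 with h | h
        · exact h a1
        · rcases a2 with h' | h'
          · exact h' b1
          · exact lt_asymm h h'
      · exact unique_nbr (F.hcd p.1.1 j hj) a3 b3
  exact Subtype.ext (Prod.ext hp hsnd)

theorem inj (j : Fin k) : Function.Injective (fun p => Z.tau p j) := by
  intro p p' h
  simp only at h
  by_contra hne
  by_cases h1 : j = p.1.1
  · rw [Z.tau_main h1] at h
    by_cases h2 : j = p'.1.1
    · rw [Z.tau_main h2] at h
      exact hne (Subtype.ext (Prod.ext (h1.symm.trans h2) h))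
    · have hv : p.1.2 ∈ F.M j := by rw [h1]; exact p.2
      by_cases h3 : F.special p' j
      · rw [Z.tau_special h2 h3] at h
        exact c_ne_M j p'.1.1 (Ne.symm h2) _ hv h.symm
      · rw [Z.tau_generic h2 h3] at h
        exact Z.gen_ne_M j p' _ hv h.symm
  · by_cases h2 : j = p'.1.1
    · rw [Z.tau_main h2] at h
      have hv : p'.1.2 ∈ F.M j := by rw [h2]; exact p'.2
      by_cases h3 : F.special p j
      · rw [Z.tau_special h1 h3] at h
        exact c_ne_M j p.1.1 (Ne.symm h1) _ hv h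
      · rw [Z.tau_generic h1 h3] at h
        exact Z.gen_ne_M j p _ hv h
    · by_cases h3 : F.special p j
      · rw [Z.tau_special h1 h3] at h
        by_cases h4 : F.special p' j
        · rw [Z.tau_special h2 h4] at h
          by_cases h5 : p.1.1 = p'.1.1
          · exact hne (special_unique h1 h5 h3 h4)
          · exact (F.hcc j _ _ (Ne.symm h1) (Ne.symm h2) h5).1 h
        · rw [Z.tau_generic h2 h4] at h
          exact Z.gen_ne_c j p' _ (Ne.symm h1) h.symm
      · rw [Z.tau_generic h1 h3] at h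
        by_cases h4 : F.special p' j
        · rw [Z.tau_special h2 h4] at h
          exact Z.gen_ne_c j p _ (Ne.symm h2) h
        · rw [Z.tau_generic h2 h4] at h
          exact (Z.hz2 j p p' hne).1 h

/-- Adjacency in a coordinate requires a main vertex. -/
theorem adj_main {p p' : F.I1} {j : Fin k} (h : (G j).Adj (Z.tau p j) (Z.tau p' j)) :
    j = p.1.1 ∨ j = p'.1.1 := by
  by_contra hcon
  rw [not_or] at hcon
  obtain ⟨h1, h2⟩ := hcon
  by_cases hpp : p = p'
  · rw [hpp] at h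
    exact (G j).irrefl h
  by_cases h3 : F.special p j
  · rw [Z.tau_special h1 h3] at h
    by_cases h4 : F.special p' j
    · rw [Z.tau_special h2 h4] at h
      by_cases h5 : p.1.1 = p'.1.1
      · rw [h5] at h
        exact (G j).irrefl h
      · exact (F.hcc j _ _ (Ne.symm h1) (Ne.symm h2) h5).2.1 h
    · rw [Z.tau_generic h2 h4] at h
      exact Z.gen_nadj_c j p' _ (Ne.symm h1) h.symm
  · rw [Z.tau_generic h1 h3] at h
    by_cases h4 : F.special p' j
    · rw [Z.tau_special h2 h4] at h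
      exact Z.gen_nadj_c j p _ (Ne.symm h2) h
    · rw [Z.tau_generic h2 h4] at h
      exact (Z.hz2 j p p' hpp).2.1 h

/-- Adjacency of a main vertex with a coordinate of another tuple. -/
theorem adj_cases {p p' : F.I1} (hl : p.1.1 ≠ p'.1.1)
    (h : (G p.1.1).Adj p.1.2 (Z.tau p' p.1.1)) :
    (F.special p' p.1.1 ∧ (G p.1.1).Adj (F.c p.1.1 p'.1.1) p.1.2) ∨
    (¬ F.special p' p.1.1 ∧ p.1.2 ∈ F.B p.1.1 ∧
      (p.1.2 ∈ F.B1 p.1.1 ↔ F.rule p.1.1 p' = true)) := by
  by_cases h3 : F.special p' p.1.1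
  · left
    rw [Z.tau_special hl h3] at h
    exact ⟨h3, h.symm⟩
  · right
    rw [Z.tau_generic hl h3] at h
    have hB : p.1.2 ∈ F.B p.1.1 := by
      by_contra hB
      rcases mem_M_cases p.2 with h1 | ⟨i, hi, _, _, hadj⟩
      · exact hB h1
      · exact Z.gen_nadj_g p.1.1 p' p.1.2 (F.mem_Gs.mpr ⟨i, hi, hadj⟩) hB h.symm
    exact ⟨h3, hB, F.cla _ _ _ _ (Z.hz1 p.1.1 p').1 hB h.symm⟩

theorem no_conflict_aux {p p' : F.I1} (hl : p.1.1 ≠ p'.1.1)
    (h1 : (G p.1.1).Adj p.1.2 (Z.tau p' p.1.1))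
    (h2 : (G p'.1.1).Adj p'.1.2 (Z.tau p p'.1.1)) : False := by
  -- case with one special and one generic coordinate
  have mixed : ∀ p p' : F.I1, p.1.1 ≠ p'.1.1 → F.special p' p.1.1 →
      (G p.1.1).Adj (F.c p.1.1 p'.1.1) p.1.2 → ¬ F.special p p'.1.1 → p'.1.2 ∈ F.B p'.1.1 →
      False := by
    intro p p' hl hs hadj hns hB
    rcases hs with ⟨a1, a2, a3⟩ | ⟨a1, a2, a3⟩
    · exact hns (Or.inr ⟨a1, a3, hadj⟩)
    · have hS' : ¬ F.S p'.1.1 := by
        intro hS'
        rw [F.hSB _ hS', Finset.mem_singleton] at hB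
        rw [hB] at a3
        exact F.hcb _ _ hl hS' a3
      rcases mem_M_cases p.2 with h | ⟨i, hi, hSi, _, hadj'⟩
      · rw [F.hSB _ a1, Finset.mem_singleton] at h
        rw [h] at hadj
        exact F.hcb _ _ (Ne.symm hl) a1 hadj
      · by_cases hip : i = p'.1.1
        · rw [hip] at hSi
          exact hS' hSi
        · exact (F.hcc p.1.1 i p'.1.1 hi (Ne.symm hl) hip).2.2 _ hadj' hadj
  rcases Z.adj_cases hl h1 with ⟨a1, a2⟩ | ⟨a1, a2, a3⟩
  · rcases Z.adj_cases (Ne.symm hl) h2 with ⟨b1, b2⟩ | ⟨b1, b2, b3⟩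
    · -- both special
      have c1 : F.S p'.1.1 ∧ (¬ F.S p.1.1 ∨ p'.1.1 < p.1.1) := by
        rcases b1 with ⟨e1, e2, e3⟩ | ⟨e1, e2, e3⟩
        · exfalso
          rw [e2] at a2
          exact F.hcb _ _ (Ne.symm hl) e1 a2
        · exact ⟨e1, e2⟩
      have c2 : F.S p.1.1 ∧ (¬ F.S p'.1.1 ∨ p.1.1 < p'.1.1) := by
        rcases a1 with ⟨e1, e2, e3⟩ | ⟨e1, e2, e3⟩
        · exfalso
          rw [e2] at b2
          exact F.hcb _ _ hl e1 b2
        · exact ⟨e1, e2⟩
      rcases c1.2 with h | h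
      · exact h c2.1
      · rcases c2.2 with h' | h'
        · exact h' c1.1
        · exact lt_asymm h h'
    · exact mixed p p' hl a1 a2 b1 b2
  · rcases Z.adj_cases (Ne.symm hl) h2 with ⟨b1, b2⟩ | ⟨b1, b2, b3⟩
    · exact mixed p' p (Ne.symm hl) b1 b2 a1 a2
    · -- both generic
      have starcase : ∀ p p' : F.I1, p.1.1 ≠ p'.1.1 → p.1.2 ∈ F.B p.1.1 →
          p'.1.2 ∈ F.B p'.1.1 → ¬ F.special p' p.1.1 → ¬ F.special p p'.1.1 →
          ¬ F.S p.1.1 := by
        intro p p' hl hB hB' hns' hns hS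
        rw [F.hSB _ hS, Finset.mem_singleton] at hB
        have h3 : F.S p'.1.1 ∧ ¬ (p.1.1 < p'.1.1) := by
          by_contra hcon
          apply hns
          left
          refine ⟨hS, hB, ?_⟩
          by_cases h4 : F.S p'.1.1
          · right
            by_contra h5
            exact hcon ⟨h4, h5⟩
          · exact Or.inl h4
        rw [F.hSB _ h3.1, Finset.mem_singleton] at hB'
        apply hns'
        left
        refine ⟨h3.1, hB', Or.inr ?_⟩
        exact lt_of_le_of_ne (not_lt.mp h3.2) (Ne.symm hl)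
      have hS := starcase p p' hl a2 b2 a1 b1
      have hS' := starcase p' p (Ne.symm hl) b2 a2 b1 a1
      rcases lt_or_gt_of_ne hl with hlt | hlt
      · have r1 : F.rule p.1.1 p' = decide (p'.1.2 ∈ F.B1 p'.1.1) := by
          unfold rule
          rw [if_neg hS, if_pos hlt]
        have r2 : F.rule p'.1.1 p = !decide (p.1.2 ∈ F.B1 p.1.1) := by
          unfold rule
          rw [if_neg hS', if_neg (lt_asymm hlt)]
        rw [r1] at a3
        rw [r2] at b3
        by_cases e1 : p.1.2 ∈ F.B1 p.1.1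
        · by_cases e2 : p'.1.2 ∈ F.B1 p'.1.1
          · simp [e1, e2] at b3
          · simp [e1, e2] at a3
        · by_cases e2 : p'.1.2 ∈ F.B1 p'.1.1
          · simp [e1, e2] at a3
          · simp [e1, e2] at b3
      · have r1 : F.rule p.1.1 p' = !decide (p'.1.2 ∈ F.B1 p'.1.1) := by
          unfold rule
          rw [if_neg hS, if_neg (lt_asymm hlt)]
        have r2 : F.rule p'.1.1 p = decide (p.1.2 ∈ F.B1 p.1.1) := by
          unfold rule
          rw [if_neg hS', if_pos hlt]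
        rw [r1] at a3
        rw [r2] at b3
        by_cases e1 : p.1.2 ∈ F.B1 p.1.1
        · by_cases e2 : p'.1.2 ∈ F.B1 p'.1.1
          · simp [e1, e2] at a3
          · simp [e1, e2] at b3
        · by_cases e2 : p'.1.2 ∈ F.B1 p'.1.1
          · simp [e1, e2] at b3
          · simp [e1, e2] at a3

theorem no_conflict {p p' : F.I1} {i j : Fin k} (hij : i ≠ j)
    (h1 : (G i).Adj (Z.tau p i) (Z.tau p' i)) (h2 : (G j).Adj (Z.tau p j) (Z.tau p' j)) :
    False := by
  rcases Z.adj_main h1 with a | a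
  · rcases Z.adj_main h2 with b | b
    · exact hij (a.trans b.symm)
    · have hl : p.1.1 ≠ p'.1.1 := fun h => hij (a.trans (h.trans b.symm))
      rw [Z.tau_main a, a] at h1
      rw [Z.tau_main b, b] at h2
      exact Z.no_conflict_aux hl h1 h2.symm
  · rcases Z.adj_main h2 with b | b
    · have hl : p'.1.1 ≠ p.1.1 := fun h => hij (a.trans (h.trans b.symm))
      rw [Z.tau_main a, a] at h1
      rw [Z.tau_main b, b] at h2
      exact Z.no_conflict_aux hl h1.symm h2
    · exact hij (a.trans b.symm)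

/-- Big coordinates are main coordinates. -/
theorem big_main {p : F.I1} {j : Fin k} (h : Z.tau p j ∈ F.B j) : j = p.1.1 := by
  by_contra hj
  by_cases h3 : F.special p j
  · rw [Z.tau_special hj h3] at h
    exact F.hcB j _ (Ne.symm hj) h
  · rw [Z.tau_generic hj h3] at h
    exact Z.gen_notB j p h

/-- Non-main coordinates have bounded degree. -/
theorem deg_nonmain {p : F.I1} {j : Fin k} (hj : j ≠ p.1.1) : dg (G j) (Z.tau p j) ≤ F.K := by
  by_cases h3 : F.special p j
  · rw [Z.tau_special hj h3]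
    exact (F.hcd j _ (Ne.symm hj)).trans F.hK
  · rw [Z.tau_generic hj h3]
    exact F.clK j _ _ (Z.hz1 j p).1

theorem cover_M {j : Fin k} {v : Fin n} (hv : v ∈ F.M j) : ∃ p : F.I1, Z.tau p j = v :=
  ⟨⟨(j, v), hv⟩, Z.tau_main rfl⟩

theorem cover_B {j : Fin k} {v : Fin n} (hv : v ∈ F.B j) : ∃ p : F.I1, Z.tau p j = v :=
  Z.cover_M (Finset.mem_filter.mpr ⟨Finset.mem_univ _, Or.inl hv⟩)

/-- Two different tuples do not share a non-big neighbour in a non-main coordinate. -/
theorem uniq {p p' : F.I1} {j : Fin k} {q : Fin n} (hj : j ≠ p.1.1) (hj' : j ≠ p'.1.1)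
    (hq : q ∉ F.B j) (h1 : (G j).Adj (Z.tau p j) q) (h2 : (G j).Adj (Z.tau p' j) q) :
    p = p' := by
  by_contra hne
  by_cases h3 : F.special p j
  · rw [Z.tau_special hj h3] at h1
    by_cases h4 : F.special p' j
    · rw [Z.tau_special hj' h4] at h2
      by_cases h5 : p.1.1 = p'.1.1
      · exact hne (special_unique hj h5 h3 h4)
      · exact (F.hcc j _ _ (Ne.symm hj) (Ne.symm hj') h5).2.2 q h1 h2
    · rw [Z.tau_generic hj' h4] at h2
      exact Z.gen_nadj_g j p' q (F.mem_Gs.mpr ⟨_, Ne.symm hj, h1⟩) hq h2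
  · rw [Z.tau_generic hj h3] at h1
    by_cases h4 : F.special p' j
    · rw [Z.tau_special hj' h4] at h2
      exact Z.gen_nadj_g j p q (F.mem_Gs.mpr ⟨_, Ne.symm hj', h2⟩) hq h1
    · rw [Z.tau_generic hj' h4] at h2
      exact (Z.hz2 j p p' hne).2.2 q hq h1 h2

end Ch1

end Fam

end Pool.Agent.Helper852.K
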