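import Pool.Agent.Helper852.K.Round1

set_option autoImplicit false

/-!
The second round of the core construction.
-/

namespace Pool.Agent.Helper852.K

open Finset Classical Pool.Agent.Helper852.Cnt

variable {n k : ℕ} {G : Fin k → SimpleGraph (Fin n)}

namespace Fam

namespace Ch1

variable {F : Fam n k G} (Z : F.Ch1)

/-- Pending vertices. -/
abbrev I2 : Type := {r : Fin k × Fin n // ∃ p : F.I1, r.1 ≠ p.1.1 ∧ p.1.2 ∈ F.B p.1.1 ∧
  (G r.1).Adj (Z.tau p r.1) r.2 ∧ ∀ p', Z.tau p' r.1 ≠ r.2}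

/-- The tuple from which a pending vertex arises. -/
noncomputable def orig (r : Z.I2) : F.I1 := r.2.choose

theorem orig_spec (r : Z.I2) : r.1.1 ≠ (Z.orig r).1.1 ∧ (Z.orig r).1.2 ∈ F.B (Z.orig r).1.1 ∧
    (G r.1.1).Adj (Z.tau (Z.orig r) r.1.1) r.1.2 ∧ ∀ p', Z.tau p' r.1.1 ≠ r.1.2 :=
  r.2.choose_spec

theorem pend_notB (r : Z.I2) : r.1.2 ∉ F.B r.1.1 := by
  intro h
  obtain ⟨p, hp⟩ := Z.cover_B h
  exact (Z.orig_spec r).2.2.2 p hp

theorem orig_nonstar (r : Z.I2) : ¬ F.S (Z.orig r).1.1 := by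
  intro hS
  obtain ⟨h1, h2, h3, h4⟩ := Z.orig_spec r
  rw [F.hSB _ hS, Finset.mem_singleton] at h2
  by_cases hs : F.special (Z.orig r) r.1.1
  · rw [Z.tau_special h1 hs] at h3
    rcases hs with ⟨a1, a2, a3⟩ | ⟨a1, a2, a3⟩
    · have hM : r.1.2 ∈ F.M r.1.1 :=
        Finset.mem_filter.mpr ⟨Finset.mem_univ _, Or.inr ⟨_, Ne.symm h1, hS, a3, h3⟩⟩
      obtain ⟨p, hp⟩ := Z.cover_M hM
      exact h4 p hp
    · rw [h2] at a3
      exact F.hcb _ _ h1 hS a3
  · have hSj : F.S r.1.1 := by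
      by_contra hSj
      exact hs (Or.inl ⟨hS, h2, Or.inl hSj⟩)
    rw [Z.tau_generic h1 hs] at h3
    have h5 := (Z.hz1 r.1.1 (Z.orig r)).1
    have h6 : F.rule r.1.1 (Z.orig r) = true := by
      unfold rule
      rw [if_pos hSj]
    rw [h6] at h5
    have h7 := F.clS _ _ _ hSj h5 h3
    apply Z.pend_notB r
    rw [F.hSB _ hSj, Finset.mem_singleton]
    exact h7

/-- The class used in the second round. -/
noncomputable def rule2 (i : Fin k) (r : Z.I2) : Bool :=
  if F.S i then true else !decide ((Z.orig r).1.2 ∈ F.B1 i)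

/-- Pending vertices of a graph. -/
noncomputable def Qs (i : Fin k) : Finset (Fin n) :=
  univ.filter (fun q => ∃ r : Z.I2, r.1.1 = i ∧ r.1.2 = q)

/-- Avoided vertices in the second round. -/
noncomputable def Av2 (i : Fin k) : Finset (Fin n) :=
  (((univ : Finset F.I1).image (fun p => Z.tau p i)) ∪
    (univ.filter (fun p => Z.tau p i ∉ F.B i)).biUnion
      (fun p => univ.filter (fun u => (G i).Adj (Z.tau p i) u))) ∪
  (Z.Qs i ∪ (Z.Qs i).biUnion (fun q => univ.filter (fun u => (G i).Adj q u)))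

theorem card_I2 : Fintype.card Z.I2 ≤ (k * (F.NB + k)) * (k * F.K) := by
  have h1 : Fintype.card Z.I2 = (univ.filter (fun r : Fin k × Fin n =>
      ∃ p : F.I1, r.1 ≠ p.1.1 ∧ p.1.2 ∈ F.B p.1.1 ∧
      (G r.1).Adj (Z.tau p r.1) r.2 ∧ ∀ p', Z.tau p' r.1 ≠ r.2)).card := Fintype.card_subtype _
  have h2 : (univ.filter (fun r : Fin k × Fin n =>
      ∃ p : F.I1, r.1 ≠ p.1.1 ∧ p.1.2 ∈ F.B p.1.1 ∧
      (G r.1).Adj (Z.tau p r.1) r.2 ∧ ∀ p', Z.tau p' r.1 ≠ r.2)) ⊆
      (univ : Finset F.I1).biUnion (fun p => (univ.filter (fun j => j ≠ p.1.1)).biUnion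
        (fun j => (univ.filter (fun u => (G j).Adj (Z.tau p j) u)).image (fun u => (j, u)))) := by
    rintro ⟨j, q⟩ hr
    obtain ⟨p, hp1, _, hp3, _⟩ := (Finset.mem_filter.mp hr).2
    exact Finset.mem_biUnion.mpr ⟨p, Finset.mem_univ _, Finset.mem_biUnion.mpr
      ⟨j, Finset.mem_filter.mpr ⟨Finset.mem_univ _, hp1⟩, Finset.mem_image.mpr
        ⟨q, Finset.mem_filter.mpr ⟨Finset.mem_univ _, hp3⟩, rfl⟩⟩⟩
  rw [h1]
  calc (univ.filter (fun r : Fin k × Fin n =>
      ∃ p : F.I1, r.1 ≠ p.1.1 ∧ p.1.2 ∈ F.B p.1.1 ∧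
      (G r.1).Adj (Z.tau p r.1) r.2 ∧ ∀ p', Z.tau p' r.1 ≠ r.2)).card
      ≤ ∑ p : F.I1, ∑ j ∈ univ.filter (fun j => j ≠ p.1.1),
        ((univ.filter (fun u => (G j).Adj (Z.tau p j) u)).image (fun u => (j, u))).card :=
        (Finset.card_le_card h2).trans (Finset.card_biUnion_le.trans
          (Finset.sum_le_sum (fun p _ => Finset.card_biUnion_le)))
    _ ≤ ∑ p : F.I1, ∑ _j ∈ univ.filter (fun j => j ≠ p.1.1), F.K := by
        apply Finset.sum_le_sum
        intro p _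
        apply Finset.sum_le_sum
        intro j hj
        exact Finset.card_image_le.trans (Z.deg_nonmain (Finset.mem_filter.mp hj).2)
    _ ≤ ∑ _p : F.I1, k * F.K := by
        apply Finset.sum_le_sum
        intro p _
        rw [Finset.sum_const, smul_eq_mul]
        apply Nat.mul_le_mul_right
        refine (Finset.card_filter_le _ _).trans ?_
        rw [Finset.card_univ, Fintype.card_fin]
    _ = Fintype.card F.I1 * (k * F.K) := by
        rw [Finset.sum_const, smul_eq_mul, Finset.card_univ]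
    _ ≤ (k * (F.NB + k)) * (k * F.K) := Nat.mul_le_mul_right _ F.card_I1

theorem weight1 (i : Fin k) : ∑ p ∈ univ.filter (fun p => Z.tau p i ∉ F.B i),
    (dg (G i) (Z.tau p i) : ℝ) ≤ k * F.dm i + Fintype.card F.I1 * F.K := by
  have h1 : ∀ p ∈ univ.filter (fun p => Z.tau p i ∉ F.B i), (dg (G i) (Z.tau p i) : ℝ) ≤
      (if i = p.1.1 then F.dm i else 0) + F.K := by
    intro p hp
    have hp' := (Finset.mem_filter.mp hp).2
    by_cases h : i = p.1.1
    · rw [if_pos h]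
      have := F.hdeg i _ hp'
      have h2 : (0 : ℝ) ≤ F.K := Nat.cast_nonneg _
      linarith
    · rw [if_neg h, zero_add]
      exact_mod_cast Z.deg_nonmain h
  refine (Finset.sum_le_sum h1).trans ?_
  rw [Finset.sum_add_distrib]
  apply add_le_add
  · rw [← Finset.sum_filter, Finset.sum_const, nsmul_eq_mul]
    apply mul_le_mul_of_nonneg_right _ (F.hdm i)
    have h2 : ((univ.filter (fun p => Z.tau p i ∉ F.B i)).filter (fun p => i = p.1.1)).card ≤
        (F.Gs i).card := by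
      apply Finset.card_le_card_of_injOn (fun p => Z.tau p i)
      · intro p hp
        have hp1 := Finset.mem_filter.mp (Finset.mem_coe.mp hp)
        have hp2 := (Finset.mem_filter.mp hp1.1).2
        have hv : Z.tau p i ∈ F.M i := by
          rw [Z.tau_main hp1.2, hp1.2]
          exact p.2
        rcases mem_M_cases hv with h | ⟨l, hl, _, _, hadj⟩
        · exact absurd h hp2
        · exact Finset.mem_coe.mpr (F.mem_Gs.mpr ⟨l, hl, hadj⟩)
      · intro p _ p' _ h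
        exact Z.inj i h
    exact_mod_cast h2.trans (F.card_Gs i)
  · rw [Finset.sum_const, nsmul_eq_mul]
    apply mul_le_mul_of_nonneg_right _ (Nat.cast_nonneg _)
    exact_mod_cast Finset.card_le_univ _

theorem pend_deg (r : Z.I2) : r.1.2 ∈ F.Gs r.1.1 ∨ (dg (G r.1.1) r.1.2 : ℝ) ≤ F.s := by
  obtain ⟨h1, h2, h3, h4⟩ := Z.orig_spec r
  by_cases hs : F.special (Z.orig r) r.1.1
  · rw [Z.tau_special h1 hs] at h3
    exact Or.inl (F.mem_Gs.mpr ⟨_, Ne.symm h1, h3⟩)
  · rw [Z.tau_generic h1 hs] at h3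
    exact Or.inr (F.cls _ _ _ _ (Z.hz1 _ _).1 (Z.pend_notB r) h3)

theorem card_Qs (i : Fin k) : (Z.Qs i).card ≤ Fintype.card Z.I2 := by
  have h1 : Z.Qs i ⊆ (univ : Finset Z.I2).image (fun r => r.1.2) := by
    intro q hq
    obtain ⟨r, _, hr⟩ := (Finset.mem_filter.mp hq).2
    exact Finset.mem_image.mpr ⟨r, Finset.mem_univ _, hr⟩
  exact (Finset.card_le_card h1).trans Finset.card_image_le

theorem weightQ (i : Fin k) : ∑ q ∈ Z.Qs i, (dg (G i) q : ℝ) ≤
    k * F.dm i + Fintype.card Z.I2 * F.s := by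
  have h1 : ∀ q ∈ Z.Qs i, (dg (G i) q : ℝ) ≤ (if q ∈ F.Gs i then F.dm i else 0) + F.s := by
    intro q hq
    obtain ⟨r, hr1, hr2⟩ := (Finset.mem_filter.mp hq).2
    have h2 := Z.pend_deg r
    have h3 := Z.pend_notB r
    rw [hr1, hr2] at h2 h3
    have h4 := F.hs
    have h5 := F.hdm i
    rcases h2 with h | h
    · rw [if_pos h]
      have := F.hdeg i q h3
      linarith
    · split_ifs
      · linarith
      · linarith
  refine (Finset.sum_le_sum h1).trans ?_
  rw [Finset.sum_add_distrib]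
  apply add_le_add
  · rw [← Finset.sum_filter, Finset.sum_const, nsmul_eq_mul]
    apply mul_le_mul_of_nonneg_right _ (F.hdm i)
    have h2 : ((Z.Qs i).filter (fun q => q ∈ F.Gs i)).card ≤ (F.Gs i).card := by
      apply Finset.card_le_card
      intro q hq
      exact (Finset.mem_filter.mp hq).2
    exact_mod_cast h2.trans (F.card_Gs i)
  · rw [Finset.sum_const, nsmul_eq_mul]
    apply mul_le_mul_of_nonneg_right _ F.hs
    exact_mod_cast Z.card_Qs i

theorem card_nbrs {ι : Type} (G0 : SimpleGraph (Fin n)) (T : Finset ι) (f : ι → Fin n) :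
    (((T.biUnion (fun a => univ.filter (fun u => G0.Adj (f a) u))).card : ℕ) : ℝ) ≤
      ∑ a ∈ T, (dg G0 (f a) : ℝ) := by
  have h : (T.biUnion (fun a => univ.filter (fun u => G0.Adj (f a) u))).card ≤
      ∑ a ∈ T, dg G0 (f a) := Finset.card_biUnion_le
  exact_mod_cast h

theorem card_Av2 (i : Fin k) : ((Z.Av2 i).card : ℝ) ≤ Fintype.card F.I1 +
    (k * F.dm i + Fintype.card F.I1 * F.K) + Fintype.card Z.I2 +
      (k * F.dm i + Fintype.card Z.I2 * F.s) := by
  have e1 := Finset.card_union_le (((univ : Finset F.I1).image (fun p => Z.tau p i)) ∪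
    (univ.filter (fun p => Z.tau p i ∉ F.B i)).biUnion
      (fun p => univ.filter (fun u => (G i).Adj (Z.tau p i) u)))
    (Z.Qs i ∪ (Z.Qs i).biUnion (fun q => univ.filter (fun u => (G i).Adj q u)))
  have e2 := Finset.card_union_le ((univ : Finset F.I1).image (fun p => Z.tau p i))
    ((univ.filter (fun p => Z.tau p i ∉ F.B i)).biUnion
      (fun p => univ.filter (fun u => (G i).Adj (Z.tau p i) u)))
  have e3 := Finset.card_union_le (Z.Qs i)
    ((Z.Qs i).biUnion (fun q => univ.filter (fun u => (G i).Adj q u)))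
  have e4 : ((univ : Finset F.I1).image (fun p => Z.tau p i)).card ≤ Fintype.card F.I1 :=
    Finset.card_image_le
  have e5 := Z.card_Qs i
  have e6 := card_nbrs (G i) (univ.filter (fun p => Z.tau p i ∉ F.B i)) (fun p => Z.tau p i)
  have e7 := card_nbrs (G i) (Z.Qs i) (fun q => q)
  have e8 := Z.weight1 i
  have e9 := Z.weightQ i
  have e10 : (Z.Av2 i).card ≤ Fintype.card F.I1 +
      ((univ.filter (fun p => Z.tau p i ∉ F.B i)).biUnion
        (fun p => univ.filter (fun u => (G i).Adj (Z.tau p i) u))).card +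
      Fintype.card Z.I2 +
      ((Z.Qs i).biUnion (fun q => univ.filter (fun u => (G i).Adj q u))).card := by
    unfold Av2
    omega
  have e11 : ((Z.Av2 i).card : ℝ) ≤ Fintype.card F.I1 +
      ((univ.filter (fun p => Z.tau p i ∉ F.B i)).biUnion
        (fun p => univ.filter (fun u => (G i).Adj (Z.tau p i) u))).card +
      Fintype.card Z.I2 +
      ((Z.Qs i).biUnion (fun q => univ.filter (fun u => (G i).Adj q u))).card := by
    exact_mod_cast e10
  linarith

/-- A second-round choice. -/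
structure Ch2 where
  y : Fin k → Z.I2 → Fin n
  hy1 : ∀ i r, y i r ∈ F.cl i (Z.rule2 i r) ∧ y i r ∉ Z.Av2 i
  hy2 : ∀ i r r', r ≠ r' → y i r ≠ y i r' ∧ ¬ (G i).Adj (y i r) (y i r')

theorem exists_ch2 (cm : Fin k → ℝ)
    (hcm : ∀ j a, (F.S j → a = true) → cm j ≤ ((F.cl j a).card : ℝ)) (N1 N2 : ℝ)
    (hN1 : ((k * (F.NB + k) : ℕ) : ℝ) ≤ N1)
    (hN2 : (((k * (F.NB + k)) * (k * F.K) : ℕ) : ℝ) ≤ N2)
    (hnum : ∀ j, N1 + (k * F.dm j + N1 * F.K) + N2 + (k * F.dm j + N2 * F.s) +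
      N2 * (1 + F.K + F.K * F.s) < cm j) : Nonempty Z.Ch2 := by
  have h : ∀ i, ∃ y : Z.I2 → Fin n, (∀ r, y r ∈ F.cl i (Z.rule2 i r) ∧ y r ∉ Z.Av2 i) ∧
      ∀ r r', r ≠ r' → y r ≠ y r' ∧ ¬ (G i).Adj (y r) (y r') ∧
        ∀ q, q ∉ F.B i → (G i).Adj (y r) q → ¬ (G i).Adj (y r') q := by
    intro i
    apply gen_sel (G i) (F.B i) (fun r : Z.I2 => F.cl i (Z.rule2 i r)) (Z.Av2 i) F.K F.s F.hs
    · intro p z hz
      exact F.clK i _ z hz
    · intro p z hz q hq hadj
      exact F.cls i _ z q hz hq hadj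
    · intro r
      have h1 := hcm i (Z.rule2 i r) (by
        intro hS
        unfold rule2
        rw [if_pos hS])
      have h2 := Z.card_Av2 i
      have h3 : (Fintype.card F.I1 : ℝ) ≤ N1 := by
        refine le_trans ?_ hN1
        exact_mod_cast F.card_I1
      have h4 : (Fintype.card Z.I2 : ℝ) ≤ N2 := by
        refine le_trans ?_ hN2
        exact_mod_cast Z.card_I2
      have h5 := hnum i
      have hs := F.hs
      have h6 : (Fintype.card Z.I2 : ℝ) * (1 + F.K + F.K * F.s) ≤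
          N2 * (1 + F.K + F.K * F.s) := mul_le_mul_of_nonneg_right h4 (by positivity)
      have h7 : (Fintype.card F.I1 : ℝ) * F.K ≤ N1 * F.K :=
        mul_le_mul_of_nonneg_right h3 (Nat.cast_nonneg _)
      have h8 : (Fintype.card Z.I2 : ℝ) * F.s ≤ N2 * F.s :=
        mul_le_mul_of_nonneg_right h4 hs
      linarith
  choose y hy1 hy2 using h
  exact ⟨⟨y, hy1, fun i r r' hr => ⟨(hy2 i r r' hr).1, (hy2 i r r' hr).2.1⟩⟩⟩

namespace Ch2

variable {Z} (Y : Z.Ch2)

/-- The tuples of the second round. -/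
noncomputable def tau2 (r : Z.I2) (i : Fin k) : Fin n :=
  if i = r.1.1 then r.1.2 else Y.y i r

theorem tau2_main {r : Z.I2} {i : Fin k} (h : i = r.1.1) : Y.tau2 r i = r.1.2 := by
  unfold tau2; rw [if_pos h]

theorem tau2_gen {r : Z.I2} {i : Fin k} (h : i ≠ r.1.1) : Y.tau2 r i = Y.y i r := by
  unfold tau2; rw [if_neg h]

/-- All tuples. -/
noncomputable def T (a : F.I1 ⊕ Z.I2) (i : Fin k) : Fin n :=
  Sum.elim (fun p => Z.tau p i) (fun r => Y.tau2 r i) a

theorem y_ne_tau (i : Fin k) (r : Z.I2) (p : F.I1) : Y.y i r ≠ Z.tau p i := by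
  intro h
  apply (Y.hy1 i r).2
  unfold Av2
  rw [h]
  exact Finset.mem_union_left _ (Finset.mem_union_left _
    (Finset.mem_image.mpr ⟨p, Finset.mem_univ _, rfl⟩))

theorem y_notadj_tau (i : Fin k) (r : Z.I2) (p : F.I1) (hp : Z.tau p i ∉ F.B i) :
    ¬ (G i).Adj (Y.y i r) (Z.tau p i) := by
  intro h
  apply (Y.hy1 i r).2
  unfold Av2
  exact Finset.mem_union_left _ (Finset.mem_union_right _ (Finset.mem_biUnion.mpr
    ⟨p, Finset.mem_filter.mpr ⟨Finset.mem_univ _, hp⟩, Finset.mem_filter.mpr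
      ⟨Finset.mem_univ _, h.symm⟩⟩))

theorem y_ne_q (i : Fin k) (r r' : Z.I2) (h : r'.1.1 = i) : Y.y i r ≠ r'.1.2 := by
  intro he
  apply (Y.hy1 i r).2
  unfold Av2
  rw [he]
  exact Finset.mem_union_right _ (Finset.mem_union_left _
    (Finset.mem_filter.mpr ⟨Finset.mem_univ _, r', h, rfl⟩))

theorem y_notadj_q (i : Fin k) (r r' : Z.I2) (h : r'.1.1 = i) :
    ¬ (G i).Adj (Y.y i r) r'.1.2 := by
  intro he
  apply (Y.hy1 i r).2
  unfold Av2
  exact Finset.mem_union_right _ (Finset.mem_union_right _ (Finset.mem_biUnion.mpr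
    ⟨r'.1.2, Finset.mem_filter.mpr ⟨Finset.mem_univ _, r', h, rfl⟩, Finset.mem_filter.mpr
      ⟨Finset.mem_univ _, he.symm⟩⟩))

theorem T_inj (i : Fin k) : Function.Injective (fun a => Y.T a i) := by
  intro a a' h
  simp only at h
  rcases a with p | r
  · rcases a' with p' | r'
    · have h' : Z.tau p i = Z.tau p' i := h
      rw [Z.inj i h']
    · exfalso
      have h' : Z.tau p i = Y.tau2 r' i := h
      by_cases hi : i = r'.1.1
      · rw [Y.tau2_main hi, hi] at h'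
        exact (Z.orig_spec r').2.2.2 p h'
      · rw [Y.tau2_gen hi] at h'
        exact Y.y_ne_tau i r' p h'.symm
  · rcases a' with p' | r'
    · exfalso
      have h' : Y.tau2 r i = Z.tau p' i := h
      by_cases hi : i = r.1.1
      · rw [Y.tau2_main hi, hi] at h'
        exact (Z.orig_spec r).2.2.2 p' h'.symm
      · rw [Y.tau2_gen hi] at h'
        exact Y.y_ne_tau i r p' h'
    · have h' : Y.tau2 r i = Y.tau2 r' i := h
      by_cases hi : i = r.1.1
      · by_cases hi' : i = r'.1.1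
        · rw [Y.tau2_main hi, Y.tau2_main hi'] at h'
          have : r = r' := Subtype.ext (Prod.ext (hi.symm.trans hi') h')
          rw [this]
        · rw [Y.tau2_main hi, Y.tau2_gen hi'] at h'
          exact absurd h'.symm (Y.y_ne_q i r' r hi.symm)
      · by_cases hi' : i = r'.1.1
        · rw [Y.tau2_gen hi, Y.tau2_main hi'] at h'
          exact absurd h' (Y.y_ne_q i r r' hi'.symm)
        · rw [Y.tau2_gen hi, Y.tau2_gen hi'] at h'
          by_contra hne
          have hrr : r ≠ r' := fun e => hne (by rw [e])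
          exact (Y.hy2 i r r' hrr).1 h'

/-- Adjacency between a first-round tuple and a generic second-round coordinate. -/
theorem adj12 {p : F.I1} {r : Z.I2} {i : Fin k} (hi : i ≠ r.1.1)
    (h : (G i).Adj (Z.tau p i) (Y.tau2 r i)) :
    i = p.1.1 ∧ p.1.2 ∈ F.B p.1.1 ∧ (p.1.2 ∈ F.B1 p.1.1 ↔ Z.rule2 p.1.1 r = true) := by
  rw [Y.tau2_gen hi] at h
  have hB : Z.tau p i ∈ F.B i := by
    by_contra hB
    exact Y.y_notadj_tau i r p hB h.symm
  have hm := Z.big_main hB
  have hc := F.cla i _ _ _ (Y.hy1 i r).1 hB h.symm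
  rw [Z.tau_main hm] at hB hc
  rw [hm] at hB hc
  exact ⟨hm, hB, hc⟩

theorem conf12 {p : F.I1} {r : Z.I2} {i j : Fin k} (hij : i ≠ j)
    (h1 : (G i).Adj (Z.tau p i) (Y.tau2 r i)) (h2 : (G j).Adj (Z.tau p j) (Y.tau2 r j)) :
    False := by
  have key : ∀ i j : Fin k, i ≠ j → j = r.1.1 → (G i).Adj (Z.tau p i) (Y.tau2 r i) →
      (G j).Adj (Z.tau p j) (Y.tau2 r j) → False := by
    intro i j hij hj h1 h2
    have hi : i ≠ r.1.1 := fun h => hij (h.trans hj.symm)
    obtain ⟨a1, a2, a3⟩ := Y.adj12 hi h1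
    rw [Y.tau2_main hj] at h2
    have hjp : j ≠ p.1.1 := fun h => hij (a1.trans h.symm)
    obtain ⟨b1, b2, b3, b4⟩ := Z.orig_spec r
    have hqB := Z.pend_notB r
    rw [← hj] at b1 b3 hqB
    have hp : p = Z.orig r := Z.uniq hjp b1 hqB h2 b3
    have hns : ¬ F.S p.1.1 := by
      rw [hp]
      exact Z.orig_nonstar r
    have hr : Z.rule2 p.1.1 r = !decide (p.1.2 ∈ F.B1 p.1.1) := by
      unfold rule2
      rw [if_neg hns, ← hp]
    rw [hr] at a3
    by_cases e : p.1.2 ∈ F.B1 p.1.1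
    · simp [e] at a3
    · simp [e] at a3
  by_cases hj : j = r.1.1
  · exact key i j hij hj h1 h2
  · by_cases hi : i = r.1.1
    · exact key j i (Ne.symm hij) hi h2 h1
    · have a := Y.adj12 hi h1
      have b := Y.adj12 hj h2
      exact hij (a.1.trans b.1.symm)

theorem adj22 {r r' : Z.I2} {i : Fin k} (h : (G i).Adj (Y.tau2 r i) (Y.tau2 r' i)) :
    i = r.1.1 := by
  by_contra hi
  rw [Y.tau2_gen hi] at h
  by_cases hi' : i = r'.1.1
  · rw [Y.tau2_main hi'] at h
    exact Y.y_notadj_q i r r' hi'.symm h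
  · rw [Y.tau2_gen hi'] at h
    by_cases hrr : r = r'
    · rw [hrr] at h
      exact (G i).irrefl h
    · exact (Y.hy2 i r r' hrr).2 h

theorem T_conf (a a' : F.I1 ⊕ Z.I2) (i j : Fin k) (hij : i ≠ j)
    (h1 : (G i).Adj (Y.T a i) (Y.T a' i)) : ¬ (G j).Adj (Y.T a j) (Y.T a' j) := by
  intro h2
  rcases a with p | r
  · rcases a' with p' | r'
    · exact Z.no_conflict hij h1 h2
    · exact Y.conf12 hij h1 h2
  · rcases a' with p' | r'
    · exact Y.conf12 hij h1.symm h2.symm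
    · exact hij ((Y.adj22 h1).trans (Y.adj22 h2).symm)

theorem T_K1 (i : Fin k) (v : Fin n) (h : ∀ a, Y.T a i ≠ v) : (dg (G i) v : ℝ) ≤ F.dm i := by
  apply F.hdeg
  intro hB
  obtain ⟨p, hp⟩ := Z.cover_B hB
  exact h (Sum.inl p) hp

theorem T_K2 (a : F.I1 ⊕ Z.I2) (i j : Fin k) (hij : i ≠ j) (hB : Y.T a i ∈ F.B i) (q : Fin n)
    (hq : (G j).Adj (Y.T a j) q) : ∃ a', Y.T a' j = q := by
  rcases a with p | r
  · have hB' : Z.tau p i ∈ F.B i := hB
    have hm := Z.big_main hB'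
    rw [Z.tau_main hm, hm] at hB'
    by_cases h : ∃ p', Z.tau p' j = q
    · obtain ⟨p', hp'⟩ := h
      exact ⟨Sum.inl p', hp'⟩
    · push Not at h
      have hjp : j ≠ p.1.1 := fun e => hij (hm.trans e.symm)
      refine ⟨Sum.inr ⟨(j, q), p, hjp, hB', hq, h⟩, ?_⟩
      exact Y.tau2_main rfl
  · exfalso
    have hB' : Y.tau2 r i ∈ F.B i := hB
    by_cases hi : i = r.1.1
    · rw [Y.tau2_main hi, hi] at hB'
      exact Z.pend_notB r hB'
    · rw [Y.tau2_gen hi] at hB'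
      exact F.clB i _ _ (Y.hy1 i r).1 hB'

theorem weight2 (i : Fin k) : ∑ r : Z.I2, (dg (G i) (Y.tau2 r i) : ℝ) ≤
    (k * F.dm i + Fintype.card Z.I2 * F.s) + Fintype.card Z.I2 * F.K := by
  have h1 : ∀ r : Z.I2, (dg (G i) (Y.tau2 r i) : ℝ) ≤
      (if r.1.1 = i then (dg (G i) r.1.2 : ℝ) else 0) + F.K := by
    intro r
    have h2 : (0 : ℝ) ≤ F.K := Nat.cast_nonneg _
    by_cases hi : i = r.1.1
    · rw [if_pos hi.symm, Y.tau2_main hi]
      linarith
    · rw [if_neg (Ne.symm hi), Y.tau2_gen hi, zero_add]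
      exact_mod_cast F.clK i _ _ (Y.hy1 i r).1
  refine (Finset.sum_le_sum (fun r _ => h1 r)).trans ?_
  rw [Finset.sum_add_distrib, Finset.sum_const, nsmul_eq_mul, Finset.card_univ]
  apply add_le_add_left
  refine le_trans ?_ (Z.weightQ i)
  rw [← Finset.sum_filter]
  have h3 : ∑ r ∈ univ.filter (fun r : Z.I2 => r.1.1 = i), (dg (G i) r.1.2 : ℝ) =
      ∑ q ∈ (univ.filter (fun r : Z.I2 => r.1.1 = i)).image (fun r => r.1.2),
        (dg (G i) q : ℝ) := by
    rw [Finset.sum_image]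
    intro r hr r' hr' he
    have e1 := (Finset.mem_filter.mp (Finset.mem_coe.mp hr)).2
    have e2 := (Finset.mem_filter.mp (Finset.mem_coe.mp hr')).2
    exact Subtype.ext (Prod.ext (e1.trans e2.symm) he)
  rw [h3]
  apply Finset.sum_le_sum_of_subset_of_nonneg
  · intro q hq
    obtain ⟨r, hr, he⟩ := Finset.mem_image.mp hq
    exact Finset.mem_filter.mpr ⟨Finset.mem_univ _, r, (Finset.mem_filter.mp hr).2, he⟩
  · intro _ _ _
    exact Nat.cast_nonneg _

theorem T_K3 (i : Fin k) (N1 N2 : ℝ) (hN1 : ((k * (F.NB + k) : ℕ) : ℝ) ≤ N1)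
    (hN2 : (((k * (F.NB + k)) * (k * F.K) : ℕ) : ℝ) ≤ N2) :
    ∑ a ∈ univ.filter (fun a => Y.T a i ∉ F.B i), (dg (G i) (Y.T a i) : ℝ) ≤
      (k * F.dm i + N1 * F.K) + ((k * F.dm i + N2 * F.s) + N2 * F.K) := by
  have h1 := Z.weight1 i
  have h2 := Y.weight2 i
  have h3 : (Fintype.card F.I1 : ℝ) ≤ N1 := by
    refine le_trans ?_ hN1
    exact_mod_cast F.card_I1
  have h4 : (Fintype.card Z.I2 : ℝ) ≤ N2 := by
    refine le_trans ?_ hN2
    exact_mod_cast Z.card_I2
  have h7 : (Fintype.card F.I1 : ℝ) * F.K ≤ N1 * F.K :=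
    mul_le_mul_of_nonneg_right h3 (Nat.cast_nonneg _)
  have h8 : (Fintype.card Z.I2 : ℝ) * F.s ≤ N2 * F.s :=
    mul_le_mul_of_nonneg_right h4 F.hs
  have h9 : (Fintype.card Z.I2 : ℝ) * F.K ≤ N2 * F.K :=
    mul_le_mul_of_nonneg_right h4 (Nat.cast_nonneg _)
  have h5 : ∑ a ∈ univ.filter (fun a => Y.T a i ∉ F.B i), (dg (G i) (Y.T a i) : ℝ) ≤
      ∑ p ∈ univ.filter (fun p => Z.tau p i ∉ F.B i), (dg (G i) (Z.tau p i) : ℝ) +
        ∑ r : Z.I2, (dg (G i) (Y.tau2 r i) : ℝ) := by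
    rw [Finset.sum_filter, Fintype.sum_sum_type, Finset.sum_filter]
    apply add_le_add
    · exact le_of_eq rfl
    · apply Finset.sum_le_sum
      intro r _
      by_cases hB : Y.T (Sum.inr r) i ∉ F.B i
      · rw [if_pos hB]
        exact le_of_eq rfl
      · rw [if_neg hB]
        exact Nat.cast_nonneg _
  linarith

end Ch2

end Ch1

end Fam

end Pool.Agent.Helper852.K
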