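import Pool.Agent.Helper852.Counting

set_option autoImplicit false

/-!
Splitting the set of high-degree vertices.
-/

namespace Pool.Agent.Helper852.K

open Finset Classical Pool.Agent.Helper852.Cnt

variable {n : ℕ}

theorem cross_le (G0 : SimpleGraph (Fin n)) (B : Finset (Fin n)) :
    ∑ v ∈ B, (univ.filter (fun u => G0.Adj v u ∧ u ∉ B)).card ≤ G0.edgeFinset.card := by
  rw [← Finset.card_sigma]
  apply Finset.card_le_card_of_injOn (fun p : (_ : Fin n) × Fin n => s(p.1, p.2))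
  · rintro ⟨v, u⟩ hp
    have h1 := Finset.mem_sigma.mp (Finset.mem_coe.mp hp)
    have h2 := (Finset.mem_filter.mp h1.2).2
    apply Finset.mem_coe.mpr
    rw [SimpleGraph.mem_edgeFinset, SimpleGraph.mem_edgeSet]
    exact h2.1
  · rintro ⟨v, u⟩ hp ⟨v', u'⟩ hp' h
    have h1 := Finset.mem_sigma.mp (Finset.mem_coe.mp hp)
    have h2 := (Finset.mem_filter.mp h1.2).2
    have h1' := Finset.mem_sigma.mp (Finset.mem_coe.mp hp')
    have h2' := (Finset.mem_filter.mp h1'.2).2
    simp only at h h1 h2 h1' h2'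
    rw [Sym2.eq_iff] at h
    rcases h with ⟨a, b⟩ | ⟨a, b⟩
    · subst a
      subst b
      rfl
    · exfalso
      subst a
      exact h2'.2 h1.1

theorem big_sum (G0 : SimpleGraph (Fin n)) (B : Finset (Fin n)) :
    ∑ v ∈ B, dg G0 v ≤ G0.edgeFinset.card + B.card * B.card := by
  have h1 : ∀ v ∈ B, dg G0 v ≤ (univ.filter (fun u => G0.Adj v u ∧ u ∉ B)).card + B.card := by
    intro v _
    have h2 : (univ.filter (fun u => G0.Adj v u)) ⊆
        (univ.filter (fun u => G0.Adj v u ∧ u ∉ B)) ∪ B := by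
      intro u hu
      by_cases hB : u ∈ B
      · exact Finset.mem_union_right _ hB
      · exact Finset.mem_union_left _ (Finset.mem_filter.mpr
          ⟨Finset.mem_univ _, (Finset.mem_filter.mp hu).2, hB⟩)
    exact (Finset.card_le_card h2).trans (Finset.card_union_le _ _)
  refine (Finset.sum_le_sum h1).trans ?_
  rw [Finset.sum_add_distrib, Finset.sum_const, smul_eq_mul]
  exact Nat.add_le_add_right (cross_le G0 B) _

/-- Splitting with both parts of bounded total degree. -/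
theorem split (G0 : SimpleGraph (Fin n)) (B : Finset (Fin n)) (E : ℝ) (hE : 1 ≤ E)
    (he : G0.edgeFinset.card ≤ n) (hmax : ∀ v, (dg G0 v : ℝ) ≤ (1 - 1 / E) * n)
    (hB : 3 * E * (B.card : ℝ) ^ 2 ≤ n) :
    ∃ B1 ⊆ B, ∑ v ∈ B1, (dg G0 v : ℝ) ≤ (1 - 1 / (3 * E)) * n ∧
      ∑ v ∈ B \ B1, (dg G0 v : ℝ) ≤ (1 - 1 / (3 * E)) * n := by
  have hE0 : 0 < E := by linarith
  have hn0 : (0 : ℝ) ≤ n := Nat.cast_nonneg _
  have hE3 : 1 / (3 * E) ≤ 1 := by
    rw [div_le_one (by positivity)]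
    linarith
  set P : Finset (Finset (Fin n)) := B.powerset.filter
    (fun X => ∑ v ∈ X, (dg G0 v : ℝ) ≤ (1 - 1 / (3 * E)) * n) with hP
  have hPne : P.Nonempty := by
    refine ⟨∅, ?_⟩
    rw [hP, Finset.mem_filter, Finset.sum_empty]
    exact ⟨Finset.empty_mem_powerset _, mul_nonneg (by linarith) hn0⟩
  obtain ⟨B1, hB1, hmaxc⟩ := Finset.exists_max_image P (fun X => X.card) hPne
  rw [hP, Finset.mem_filter, Finset.mem_powerset] at hB1
  refine ⟨B1, hB1.1, hB1.2, ?_⟩
  rcases (B \ B1).eq_empty_or_nonempty with h | ⟨x, hx⟩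
  · rw [h, Finset.sum_empty]
    exact mul_nonneg (by linarith) hn0
  · obtain ⟨hxB, hxB1⟩ := Finset.mem_sdiff.mp hx
    have h1 : (1 - 1 / (3 * E)) * n < ∑ v ∈ insert x B1, (dg G0 v : ℝ) := by
      by_contra hcon
      push Not at hcon
      have h2 : insert x B1 ∈ P := by
        rw [hP, Finset.mem_filter, Finset.mem_powerset]
        exact ⟨Finset.insert_subset hxB hB1.1, hcon⟩
      have h3 := hmaxc _ h2
      rw [Finset.card_insert_of_notMem hxB1] at h3
      omega
    rw [Finset.sum_insert hxB1] at h1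
    have h2 := hmax x
    have h3 : ((∑ v ∈ B, dg G0 v : ℕ) : ℝ) ≤ n + (B.card : ℝ) ^ 2 := by
      have h4 := (big_sum G0 B).trans (Nat.add_le_add_right he _)
      rw [sq]
      exact_mod_cast h4
    have h5 : ∑ v ∈ B \ B1, (dg G0 v : ℝ) + ∑ v ∈ B1, (dg G0 v : ℝ) =
        ((∑ v ∈ B, dg G0 v : ℕ) : ℝ) := by
      rw [Nat.cast_sum]
      exact Finset.sum_sdiff hB1.1
    have h6 : (B.card : ℝ) ^ 2 ≤ n * (1 / (3 * E)) := by
      rw [mul_one_div, le_div_iff₀ (by positivity)]
      linarith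
    have h7 : (1 : ℝ) / E = 3 * (1 / (3 * E)) := by
      field_simp
    rw [h7] at h2
    set t := 1 / (3 * E) with ht
    nlinarith

end Pool.Agent.Helper852.K
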